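import Pool.Agent.T2h42.Lat.Fin2

/-!
From the logarithmic form of the dichotomy to the final form.
-/

set_option autoImplicit false

namespace Pool.Agent.T2h42.Lat

open Finset
open Pool.Agent.TH83.DC (kSum)
open scoped Classical Pointwise

theorem to_final (k : ℕ) (hk : 1 ≤ k) (ε : ℝ) (hε : 0 < ε) :
    ∃ ε' : ℝ, 0 < ε' ∧ ε' < 1 ∧ ∀ C : ℝ, 0 ≤ C → ∃ c : ℝ, 0 < c ∧ ∀ A : Finset ℕ, A.Nonempty →
      ((k - ε') * Real.log A.card - C ≤
        Real.log (((Fintype.piFinset fun _ : Fin k => A).image fun f => ∏ i, f i).card : ℝ) ∨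
      ∀ B : Finset ℤ, B.Nonempty →
        (1 - ε') * (Real.log A.card + Real.log B.card) - C ≤
          Real.log (((A.image fun a : ℕ => (a : ℤ)) + B).card : ℝ)) →
      c * (A.card : ℝ) ^ ((k : ℝ) - ε) ≤
          (((Fintype.piFinset fun _ : Fin k => A).image fun f => ∏ i, f i).card : ℝ) ∨
      ∀ B : Finset ℤ, B.Nonempty →
        c * (A.card : ℝ) ^ ((k : ℝ) - ε) * (B.card : ℝ) ^ (1 - ε) ≤
          ((((Fintype.piFinset fun _ : Fin k => A) ×ˢ B).image
            fun x => (∑ i, (x.1 i : ℤ)) + x.2).card : ℝ) := by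
  have hk' : (1 : ℝ) ≤ k := by exact_mod_cast hk
  have hk2 : (1 : ℝ) ≤ (k : ℝ) ^ 2 := one_le_pow₀ hk'
  set ε' := min (ε / k ^ 2) (1 / 2) with hε'
  have hε'0 : 0 < ε' := lt_min (by positivity) (by norm_num)
  have hε'1 : ε' < 1 := lt_of_le_of_lt (min_le_right _ _) (by norm_num)
  have hε'ε : ε' * k ^ 2 ≤ ε := by
    have := min_le_left (ε / k ^ 2) (1 / 2)
    rw [← hε', le_div_iff₀ (by positivity)] at this
    exact this
  have hε'ε2 : ε' ≤ ε := by nlinarith
  have hε'k : k * ε' ≤ ε := by nlinarith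
  refine ⟨ε', hε'0, hε'1, fun C hC0 => ⟨Real.exp (-(max C (k * C))), Real.exp_pos _, ?_⟩⟩
  intro A hA hdich
  have hApos : 0 < A.card := hA.card_pos
  have hL0 : 0 ≤ Real.log A.card := Real.log_natCast_nonneg _
  rcases hdich with h | h
  · left
    apply pow_le_of_log hApos (prods_pos hA k)
    have h1 : (k - ε) * Real.log A.card ≤ (k - ε') * Real.log A.card :=
      mul_le_mul_of_nonneg_right (by linarith) hL0
    have h2 := le_max_left C (k * C)
    linarith
  · right
    intro B hB
    have hlB : 0 ≤ Real.log B.card := Real.log_natCast_nonneg _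
    have hAz : (A.image fun a : ℕ => (a : ℤ)).Nonempty := hA.image _
    have h1 := kSum_add_ge' hAz hL0 hε'0.le hε'1.le hC0 h k B hB
    have hsub := kSum_cast_add k A B
    have hne : (kSum k (A.image fun a : ℕ => (a : ℤ)) + B).Nonempty :=
      (Pool.Agent.TH83.DC.kSum_nonempty k hAz).add hB
    set T := ((Fintype.piFinset fun _ : Fin k => A) ×ˢ B).image
      fun x => (∑ i, (x.1 i : ℤ)) + x.2 with hT
    have hTne : T.Nonempty := hne.mono hsub
    have h2 : Real.log ((kSum k (A.image fun a : ℕ => (a : ℤ)) + B).card : ℝ) ≤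
        Real.log (T.card : ℝ) := by
      apply Real.log_le_log
      · exact_mod_cast hne.card_pos
      · exact_mod_cast Finset.card_le_card hsub
    have h3 : (k - ε) * Real.log A.card ≤ (k - ε' * k ^ 2) * Real.log A.card :=
      mul_le_mul_of_nonneg_right (by linarith) hL0
    have h4 := le_max_right C (k * C)
    have h5 : (1 - ε) * Real.log B.card ≤ (1 - k * ε') * Real.log B.card :=
      mul_le_mul_of_nonneg_right (by linarith) hlB
    have hA' : (0 : ℝ) < A.card := by exact_mod_cast hApos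
    have hB' : (0 : ℝ) < B.card := by exact_mod_cast hB.card_pos
    have hT' : (0 : ℝ) < T.card := by exact_mod_cast hTne.card_pos
    rw [Real.rpow_def_of_pos hA', Real.rpow_def_of_pos hB', ← Real.exp_add, ← Real.exp_add,
      ← Real.le_log_iff_exp_le hT']
    linarith

end Pool.Agent.T2h42.Lat
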