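import Mathlib

/-!
Lower sets of a finite partially ordered set: antichains, independent pieces, elements of small
height from above.
-/

set_option autoImplicit false

namespace Pool.Agent.T2h42.Lat

open Finset
open scoped Classical

/-- the lower sets -/
noncomputable def Lo (J : Type) [Fintype J] [PartialOrder J] : Finset (Finset J) :=
  univ.filter fun D => ∀ a ∈ D, ∀ b, b ≤ a → b ∈ D

variable {J : Type} [Fintype J] [PartialOrder J]

theorem mem_Lo {D : Finset J} : D ∈ Lo J ↔ ∀ a ∈ D, ∀ b, b ≤ a → b ∈ D := by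
  simp [Lo]

theorem empty_mem_Lo : (∅ : Finset J) ∈ Lo J := by simp [mem_Lo]

theorem card_Lo_pos : 0 < (Lo J).card := Finset.card_pos.2 ⟨∅, empty_mem_Lo⟩

/-- the elements that can be added to the lower set `D` -/
noncomputable def Up (D : Finset J) : Finset J := univ.filter fun j => j ∉ D ∧ ∀ b, b < j → b ∈ D

theorem mem_Up {D : Finset J} {j : J} : j ∈ Up D ↔ j ∉ D ∧ ∀ b, b < j → b ∈ D := by
  simp [Up]

/-- adding addable elements -/
theorem add_mem_Lo {D : Finset J} (hD : D ∈ Lo J) {S : Finset J} (hS : S ⊆ Up D) :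
    D ∪ S ∈ Lo J := by
  rw [mem_Lo] at hD ⊢
  intro a ha b hb
  rw [Finset.mem_union] at ha ⊢
  rcases ha with ha | ha
  · exact Or.inl (hD a ha b hb)
  · rcases hb.lt_or_eq with h | h
    · exact Or.inl ((mem_Up.1 (hS ha)).2 b h)
    · exact Or.inr (h ▸ ha)

/-- independent pieces -/
theorem prod_le_card {κ : Type} {Q : Finset J} (hQ : Q ∈ Lo J) (F : Finset κ)
    (C : κ → Finset J) (hCQ : ∀ i ∈ F, ∀ a ∈ C i, a ∉ Q)
    (hC : ∀ i ∈ F, ∀ a ∈ C i, ∀ b, b ≤ a → b ∈ Q ∨ b ∈ C i)
    (hd : ∀ i ∈ F, ∀ j ∈ F, i ≠ j → Disjoint (C i) (C j)) :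
    ∏ i ∈ F, ((C i).card + 1) ≤ ((Lo J).filter fun D => Q ⊆ D ∧ D ⊆ Q ∪ F.biUnion C).card := by
  induction F using Finset.induction_on with
  | empty =>
    simp only [Finset.prod_empty]
    rw [Nat.one_le_iff_ne_zero, ← Nat.pos_iff_ne_zero, Finset.card_pos]
    exact ⟨Q, by simp [hQ]⟩
  | insert i F hi ih =>
    have ih' := ih (fun j hj => hCQ j (Finset.mem_insert_of_mem hj))
      (fun j hj => hC j (Finset.mem_insert_of_mem hj))
      (fun j hj l hl => hd j (Finset.mem_insert_of_mem hj) l (Finset.mem_insert_of_mem hl))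
    rw [Finset.prod_insert hi]
    set 𝓓 := (Lo J).filter fun D => Q ⊆ D ∧ D ⊆ Q ∪ F.biUnion C with h𝓓
    set 𝓟 : Finset (Finset J) := insert ∅ ((C i).image fun c => (C i).filter fun a => a ≤ c)
      with h𝓟
    have hPc : 𝓟.card = (C i).card + 1 := by
      rw [h𝓟, Finset.card_insert_of_notMem, Finset.card_image_of_injOn]
      · intro c hc c' hc' h
        have h1 : c ∈ (C i).filter fun a => a ≤ c' := by
          have : c ∈ (C i).filter fun a => a ≤ c := Finset.mem_filter.2 ⟨hc, le_refl c⟩
          simp only at h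
          rwa [h] at this
        have h2 : c' ∈ (C i).filter fun a => a ≤ c := by
          have : c' ∈ (C i).filter fun a => a ≤ c' := Finset.mem_filter.2 ⟨hc', le_refl c'⟩
          simp only at h
          rwa [← h] at this
        exact le_antisymm (Finset.mem_filter.1 h1).2 (Finset.mem_filter.1 h2).2
      · intro h
        obtain ⟨c, hc, hce⟩ := Finset.mem_image.1 h
        have : c ∈ (C i).filter fun a => a ≤ c := Finset.mem_filter.2 ⟨hc, le_refl c⟩
        rw [hce] at this
        exact Finset.notMem_empty _ this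
    have hPsub : ∀ p ∈ 𝓟, p ⊆ C i := by
      intro p hp
      rw [h𝓟, Finset.mem_insert, Finset.mem_image] at hp
      rcases hp with rfl | ⟨c, _, rfl⟩
      · exact Finset.empty_subset _
      · exact Finset.filter_subset _ _
    have hDdis : ∀ D ∈ 𝓓, ∀ a ∈ C i, a ∉ D := by
      intro D hD a ha haD
      have h1 := (Finset.mem_filter.1 hD).2.2 haD
      rcases Finset.mem_union.1 h1 with h | h
      · exact hCQ i (Finset.mem_insert_self _ _) a ha h
      · obtain ⟨j, hj, haj⟩ := Finset.mem_biUnion.1 h
        have hij : i ≠ j := fun h => hi (h ▸ hj)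
        exact Finset.disjoint_left.1 (hd i (Finset.mem_insert_self _ _) j
          (Finset.mem_insert_of_mem hj) hij) ha haj
    have key : (𝓟 ×ˢ 𝓓).card ≤ ((Lo J).filter fun D => Q ⊆ D ∧
        D ⊆ Q ∪ (insert i F).biUnion C).card := by
      apply Finset.card_le_card_of_injOn (fun w => w.2 ∪ w.1)
      · rintro ⟨p, D⟩ hw
        rw [Finset.mem_coe, Finset.mem_product] at hw
        obtain ⟨hp, hD⟩ := hw
        simp only at hp hD ⊢
        obtain ⟨hD1, hD2, hD3⟩ := Finset.mem_filter.1 hD
        rw [Finset.mem_coe, Finset.mem_filter]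
        refine ⟨?_, hD2.trans Finset.subset_union_left, ?_⟩
        · rw [mem_Lo]
          intro a ha b hb
          rcases Finset.mem_union.1 ha with h | h
          · exact Finset.mem_union_left _ (mem_Lo.1 hD1 a h b hb)
          · rw [h𝓟, Finset.mem_insert, Finset.mem_image] at hp
            rcases hp with rfl | ⟨c, hc, rfl⟩
            · exact absurd h (Finset.notMem_empty _)
            · obtain ⟨ha1, ha2⟩ := Finset.mem_filter.1 h
              rcases hC i (Finset.mem_insert_self _ _) a ha1 b hb with h3 | h3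
              · exact Finset.mem_union_left _ (hD2 h3)
              · exact Finset.mem_union_right _ (Finset.mem_filter.2 ⟨h3, hb.trans ha2⟩)
        · apply Finset.union_subset
          · refine hD3.trans (Finset.union_subset_union_right ?_)
            exact Finset.biUnion_subset_biUnion_of_subset_left _ (Finset.subset_insert _ _)
          · refine (hPsub p hp).trans (Finset.Subset.trans ?_ Finset.subset_union_right)
            exact Finset.subset_biUnion_of_mem C (Finset.mem_insert_self _ _)
      · rintro ⟨p, D⟩ hw ⟨p', D'⟩ hw' h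
        rw [Finset.mem_coe, Finset.mem_product] at hw hw'
        simp only at hw hw' h
        have e1 : p = p' := by
          ext a
          constructor
          · intro ha
            have h1 : a ∈ D' ∪ p' := by rw [← h]; exact Finset.mem_union_right _ ha
            rcases Finset.mem_union.1 h1 with h2 | h2
            · exact absurd h2 (hDdis D' hw'.2 a (hPsub p hw.1 ha))
            · exact h2
          · intro ha
            have h1 : a ∈ D ∪ p := by rw [h]; exact Finset.mem_union_right _ ha
            rcases Finset.mem_union.1 h1 with h2 | h2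
            · exact absurd h2 (hDdis D hw.2 a (hPsub p' hw'.1 ha))
            · exact h2
        have e2 : D = D' := by
          subst e1
          ext a
          constructor
          · intro ha
            have h1 : a ∈ D' ∪ p := by rw [← h]; exact Finset.mem_union_left _ ha
            rcases Finset.mem_union.1 h1 with h2 | h2
            · exact h2
            · exact absurd ha (hDdis D hw.2 a (hPsub p hw.1 h2))
          · intro ha
            have h1 : a ∈ D ∪ p := by rw [h]; exact Finset.mem_union_left _ ha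
            rcases Finset.mem_union.1 h1 with h2 | h2
            · exact h2
            · exact absurd ha (hDdis D' hw'.2 a (hPsub p hw.1 h2))
        rw [e1, e2]
    rw [Finset.card_product, hPc] at key
    exact (Nat.mul_le_mul_left _ ih').trans key

theorem prod_le_card' {κ : Type} {Q : Finset J} (hQ : Q ∈ Lo J) (F : Finset κ)
    (C : κ → Finset J) (hCQ : ∀ i ∈ F, ∀ a ∈ C i, a ∉ Q)
    (hC : ∀ i ∈ F, ∀ a ∈ C i, ∀ b, b ≤ a → b ∈ Q ∨ b ∈ C i)
    (hd : ∀ i ∈ F, ∀ j ∈ F, i ≠ j → Disjoint (C i) (C j)) :
    ∏ i ∈ F, ((C i).card + 1) ≤ (Lo J).card :=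
  (prod_le_card hQ F C hCQ hC hd).trans (Finset.card_le_card (Finset.filter_subset _ _))

/-- an antichain generates many lower sets -/
theorem antichain_card {T : Finset J} (hT : ∀ a ∈ T, ∀ b ∈ T, a ≤ b → a = b) :
    2 ^ T.card ≤ (Lo J).card := by
  rw [← Finset.card_powerset]
  apply Finset.card_le_card_of_injOn (fun S => univ.filter fun b => ∃ s ∈ S, b ≤ s)
  · intro S _
    rw [Finset.mem_coe, mem_Lo]
    intro a ha b hb
    rw [Finset.mem_filter] at ha ⊢
    obtain ⟨_, s, hs, has⟩ := ha
    exact ⟨Finset.mem_univ _, s, hs, hb.trans has⟩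
  · intro S hS S' hS' h
    rw [Finset.mem_coe, Finset.mem_powerset] at hS hS'
    simp only at h
    have key : ∀ S ⊆ T, ∀ S' ⊆ T, (univ.filter fun b => ∃ s ∈ S, b ≤ s) =
        (univ.filter fun b => ∃ s ∈ S', b ≤ s) → S ⊆ S' := by
      intro S hS S' hS' h a ha
      have h1 : a ∈ univ.filter fun b => ∃ s ∈ S, b ≤ s :=
        Finset.mem_filter.2 ⟨Finset.mem_univ _, a, ha, le_refl a⟩
      rw [h] at h1
      obtain ⟨_, s, hs, has⟩ := Finset.mem_filter.1 h1
      rw [hT a (hS ha) s (hS' hs) has]
      exact hs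
    exact Finset.Subset.antisymm (key S hS S' hS' h) (key S' hS' S hS h.symm)

theorem antichain_card_le {T : Finset J} (hT : ∀ a ∈ T, ∀ b ∈ T, a ≤ b → a = b) :
    (T.card : ℝ) ≤ Real.log (Lo J).card / Real.log 2 := by
  have hl : 0 < Real.log 2 := Real.log_pos (by norm_num)
  rw [le_div_iff₀ hl]
  have h1 : (2 : ℝ) ^ T.card ≤ (Lo J).card := by exact_mod_cast antichain_card hT
  have h2 := Real.log_le_log (by positivity) h1
  rwa [Real.log_pow] at h2

/-- the elements of `P` with at most `M` elements of `P` above them -/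
noncomputable def Top (M : ℕ) (P : Finset J) : Finset J :=
  P.filter fun j => (P.filter fun b => j ≤ b).card ≤ M

theorem card_Top_le (M : ℕ) (P : Finset J) :
    ((Top M P).card : ℝ) ≤ M * (Real.log (Lo J).card / Real.log 2) := by
  have h1 : Top M P ⊆ (Finset.Icc 1 M).biUnion fun t =>
      P.filter fun j => (P.filter fun b => j ≤ b).card = t := by
    intro j hj
    obtain ⟨hjP, hjM⟩ := Finset.mem_filter.1 hj
    rw [Finset.mem_biUnion]
    refine ⟨_, Finset.mem_Icc.2 ⟨?_, hjM⟩, Finset.mem_filter.2 ⟨hjP, rfl⟩⟩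
    exact Finset.card_pos.2 ⟨j, Finset.mem_filter.2 ⟨hjP, le_refl j⟩⟩
  have h2 : ∀ t ∈ Finset.Icc 1 M, (((P.filter fun j => (P.filter fun b => j ≤ b).card = t).card
      : ℕ) : ℝ) ≤ Real.log (Lo J).card / Real.log 2 := by
    intro t _
    apply antichain_card_le
    intro a ha b hb hab
    by_contra hne
    obtain ⟨haP, hat⟩ := Finset.mem_filter.1 ha
    obtain ⟨hbP, hbt⟩ := Finset.mem_filter.1 hb
    have hss : (P.filter fun c => b ≤ c) ⊂ (P.filter fun c => a ≤ c) := by
      rw [Finset.ssubset_iff_of_subset]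
      · refine ⟨a, Finset.mem_filter.2 ⟨haP, le_refl a⟩, fun h => ?_⟩
        exact hne (le_antisymm hab (Finset.mem_filter.1 h).2)
      · intro c hc
        obtain ⟨hcP, hbc⟩ := Finset.mem_filter.1 hc
        exact Finset.mem_filter.2 ⟨hcP, hab.trans hbc⟩
    have := Finset.card_lt_card hss
    omega
  calc ((Top M P).card : ℝ) ≤ ∑ t ∈ Finset.Icc 1 M,
        (((P.filter fun j => (P.filter fun b => j ≤ b).card = t).card : ℕ) : ℝ) := by
        exact_mod_cast (Finset.card_le_card h1).trans Finset.card_biUnion_le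
    _ ≤ ∑ t ∈ Finset.Icc 1 M, Real.log (Lo J).card / Real.log 2 := Finset.sum_le_sum h2
    _ = M * (Real.log (Lo J).card / Real.log 2) := by
        rw [Finset.sum_const, Nat.card_Icc, nsmul_eq_mul]
        simp

end Pool.Agent.T2h42.Lat
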