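import Pool.Agent.T2h42.Lat.Weights

/-!
Sets closed under greatest common divisors and least common multiples.
-/

set_option autoImplicit false
set_option linter.unusedSectionVars false

namespace Pool.Agent.T2h42.Lat

open Finset
open scoped Classical

/-- sets closed under gcd and lcm with squarefree quotients come from lower sets -/
theorem birk (A : Finset ℕ) (hne : A.Nonempty) (hpos : ∀ a ∈ A, 0 < a)
    (hg : ∀ a ∈ A, ∀ b ∈ A, Nat.gcd a b ∈ A) (hl : ∀ a ∈ A, ∀ b ∈ A, Nat.lcm a b ∈ A)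
    (hsf : ∀ a ∈ A, ∀ b ∈ A, a ∣ b → Squarefree (b / a)) :
    ∃ (J : Type) (_ : Fintype J) (_ : PartialOrder J) (w : J → ℕ) (a₀ : ℕ),
      0 < a₀ ∧ Wt w ∧ A = LA a₀ w := by
  -- least and largest element
  obtain ⟨a₀, ha₀, hmin⟩ : ∃ a₀ ∈ A, ∀ a ∈ A, a₀ ∣ a := by
    refine ⟨A.min' hne, A.min'_mem hne, fun a ha => ?_⟩
    have h1 := A.min'_le _ (hg _ (A.min'_mem hne) a ha)
    have h2 := Nat.gcd_dvd_left (A.min' hne) a
    have h3 := Nat.le_of_dvd (hpos _ (A.min'_mem hne)) h2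
    have h4 : Nat.gcd (A.min' hne) a = A.min' hne := le_antisymm h3 h1
    rw [← h4]
    exact Nat.gcd_dvd_right _ _
  obtain ⟨T, hT, hmax⟩ : ∃ T ∈ A, ∀ a ∈ A, a ∣ T := by
    refine ⟨A.max' hne, A.max'_mem hne, fun a ha => ?_⟩
    have h1 := A.le_max' _ (hl _ (A.max'_mem hne) a ha)
    have h2 := Nat.dvd_lcm_left (A.max' hne) a
    have h3 := Nat.le_of_dvd (hpos _ (hl _ (A.max'_mem hne) a ha)) h2
    have h4 : Nat.lcm (A.max' hne) a = A.max' hne := le_antisymm h1 h3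
    rw [← h4]
    exact Nat.dvd_lcm_right _ _
  have ha₀pos := hpos a₀ ha₀
  have hq : ∀ a ∈ A, ∃ q, a = a₀ * q ∧ Squarefree q := by
    intro a ha
    refine ⟨a / a₀, (Nat.mul_div_cancel' (hmin a ha)).symm, hsf a₀ ha₀ a ha (hmin a ha)⟩
  set 𝓐 : Set (Finset ℕ) := {S | ∃ q, a₀ * q ∈ A ∧ Squarefree q ∧ q.primeFactors = S} with h𝓐
  have hmem : ∀ a ∈ A, ∃ S ∈ 𝓐, a = a₀ * ∏ p ∈ S, p := by
    intro a ha
    obtain ⟨q, rfl, hqs⟩ := hq a ha
    exact ⟨q.primeFactors, ⟨q, ha, hqs, rfl⟩, by rw [Nat.prod_primeFactors_of_squarefree hqs]⟩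
  have hmem' : ∀ S ∈ 𝓐, a₀ * ∏ p ∈ S, p ∈ A := by
    rintro S ⟨q, hq1, hq2, rfl⟩
    rwa [Nat.prod_primeFactors_of_squarefree hq2]
  have hbot : (⊥ : Finset ℕ) ∈ 𝓐 := ⟨1, by rwa [mul_one], squarefree_one, by simp⟩
  have hsup : ∀ S ∈ 𝓐, ∀ S' ∈ 𝓐, S ⊔ S' ∈ 𝓐 := by
    rintro S ⟨q, hq1, hq2, rfl⟩ S' ⟨q', hq1', hq2', rfl⟩
    have h1 := hl _ hq1 _ hq1'
    rw [Nat.lcm_mul_left] at h1
    refine ⟨Nat.lcm q q', h1, ?_, ?_⟩
    · have h2 := hsf a₀ ha₀ _ h1 (Dvd.intro _ rfl)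
      rwa [Nat.mul_div_cancel_left _ ha₀pos] at h2
    · ext p
      rw [Finset.sup_eq_union, Finset.mem_union, Nat.mem_primeFactors, Nat.mem_primeFactors,
        Nat.mem_primeFactors]
      constructor
      · rintro ⟨hp, hpl, _⟩
        rcases (Nat.Prime.dvd_mul hp).1 (hpl.trans (Nat.lcm_dvd_mul q q')) with h | h
        · exact Or.inl ⟨hp, h, hq2.ne_zero⟩
        · exact Or.inr ⟨hp, h, hq2'.ne_zero⟩
      · rintro (⟨hp, h, _⟩ | ⟨hp, h, _⟩)
        · exact ⟨hp, h.trans (Nat.dvd_lcm_left _ _), Nat.lcm_ne_zero hq2.ne_zero hq2'.ne_zero⟩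
        · exact ⟨hp, h.trans (Nat.dvd_lcm_right _ _), Nat.lcm_ne_zero hq2.ne_zero hq2'.ne_zero⟩
  have hinf : ∀ S ∈ 𝓐, ∀ S' ∈ 𝓐, S ⊓ S' ∈ 𝓐 := by
    rintro S ⟨q, hq1, hq2, rfl⟩ S' ⟨q', hq1', hq2', rfl⟩
    have h1 := hg _ hq1 _ hq1'
    rw [Nat.gcd_mul_left] at h1
    refine ⟨Nat.gcd q q', h1, ?_, ?_⟩
    · have h2 := hsf a₀ ha₀ _ h1 (Dvd.intro _ rfl)
      rwa [Nat.mul_div_cancel_left _ ha₀pos] at h2
    · rw [Nat.primeFactors_gcd hq2.ne_zero hq2'.ne_zero]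
      rfl
  obtain ⟨t, rfl, hts⟩ := hq T hT
  set P := t.primeFactors with hP
  have hP𝓐 : P ∈ 𝓐 := ⟨t, hT, hts, rfl⟩
  have hsubP : ∀ S ∈ 𝓐, S ⊆ P := by
    rintro S ⟨q, hq1, hq2, rfl⟩
    have h1 := hmax _ hq1
    have h2 : q ∣ t := Nat.dvd_of_mul_dvd_mul_left ha₀pos h1
    exact Nat.primeFactors_mono h2 hts.ne_zero
  have hprime : ∀ p ∈ P, p.Prime := fun p hp => Nat.prime_of_mem_primeFactors hp
  -- the atoms
  have hU : ∀ p ∈ P, ∃ V ∈ 𝓐, p ∈ V ∧ ∀ S ∈ 𝓐, p ∈ S → V ⊆ S := by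
    intro p hp
    have hfin : (P.powerset.filter fun S => S ∈ 𝓐 ∧ p ∈ S).Nonempty :=
      ⟨P, Finset.mem_filter.2 ⟨Finset.mem_powerset_self P, hP𝓐, hp⟩⟩
    refine ⟨(P.powerset.filter fun S => S ∈ 𝓐 ∧ p ∈ S).inf' hfin id, ?_, ?_, ?_⟩
    · apply Finset.inf'_mem 𝓐 hinf
      intro S hS
      exact (Finset.mem_filter.1 hS).2.1
    · rw [← Finset.singleton_subset_iff]
      apply Finset.le_inf'
      intro S hS
      exact Finset.singleton_subset_iff.2 (Finset.mem_filter.1 hS).2.2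
    · intro S hS hpS
      exact Finset.inf'_le id (Finset.mem_filter.2 ⟨Finset.mem_powerset.2 (hsubP S hS), hS, hpS⟩)
  choose! U hU1 hU2 hU3 using hU
  set J := {V : Finset ℕ // V ∈ P.image U} with hJ
  set w : J → ℕ := fun V => ∏ p ∈ P.filter (fun p => U p = V.1), p with hw
  have hwt : Wt w := by
    refine ⟨fun V => ?_, fun V => ?_, fun V V' hVV => ?_⟩
    · obtain ⟨p, hp, hpV⟩ := Finset.mem_image.1 V.2
      have h1 : p ∣ w V := Finset.dvd_prod_of_mem _ (Finset.mem_filter.2 ⟨hp, hpV⟩)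
      have h2 : 0 < w V := Finset.prod_pos fun q hq =>
        (hprime q (Finset.mem_filter.1 hq).1).pos
      exact lt_of_lt_of_le (hprime p hp).one_lt (Nat.le_of_dvd h2 h1)
    · apply Squarefree.squarefree_of_dvd _ hts
      rw [← Nat.prod_primeFactors_of_squarefree hts]
      exact Finset.prod_dvd_prod_of_subset _ _ _ (Finset.filter_subset _ _)
    · apply Nat.Coprime.prod_left
      intro p hp
      apply Nat.Coprime.prod_right
      intro q hq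
      obtain ⟨hp1, hp2⟩ := Finset.mem_filter.1 hp
      obtain ⟨hq1, hq2⟩ := Finset.mem_filter.1 hq
      rw [Nat.coprime_primes (hprime p hp1) (hprime q hq1)]
      rintro rfl
      exact hVV (Subtype.ext (hp2.symm.trans hq2))
  -- products over lower sets
  have key : ∀ D ∈ Lo J, ∏ V ∈ D, w V = ∏ p ∈ D.sup (fun V => V.1), p := by
    intro D hD
    have hmaps : ∀ p ∈ D.sup (fun V => V.1), U p ∈ D.image Subtype.val := by
      intro p hp
      obtain ⟨V, hV, hpV⟩ := Finset.mem_sup.1 hp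
      obtain ⟨q, hq, hqV⟩ := Finset.mem_image.1 V.2
      have hV𝓐 : V.1 ∈ 𝓐 := hqV ▸ hU1 q hq
      have hpP : p ∈ P := hsubP _ hV𝓐 hpV
      have h1 : U p ⊆ V.1 := hU3 p hpP V.1 hV𝓐 hpV
      have h2 : (⟨U p, Finset.mem_image_of_mem U hpP⟩ : J) ∈ D := mem_Lo.1 hD V hV _ h1
      exact Finset.mem_image.2 ⟨_, h2, rfl⟩
    rw [← Finset.prod_fiberwise_of_maps_to hmaps, Finset.prod_image
      (fun a _ b _ h => Subtype.ext h)]
    apply Finset.prod_congr rfl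
    intro V hV
    apply Finset.prod_congr _ (fun _ _ => rfl)
    ext p
    rw [Finset.mem_filter, Finset.mem_filter]
    constructor
    · rintro ⟨h1, h2⟩
      exact ⟨Finset.mem_sup.2 ⟨V, hV, h2 ▸ hU2 p h1⟩, h2⟩
    · rintro ⟨h1, h2⟩
      obtain ⟨V', hV', hpV'⟩ := Finset.mem_sup.1 h1
      obtain ⟨q, hq, hqV⟩ := Finset.mem_image.1 V'.2
      have hV𝓐 : V'.1 ∈ 𝓐 := hqV ▸ hU1 q hq
      exact ⟨hsubP _ hV𝓐 hpV', h2⟩
  refine ⟨J, inferInstance, inferInstance, w, a₀, ha₀pos, hwt, ?_⟩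
  ext a
  rw [LA, Finset.mem_image]
  constructor
  · intro ha
    obtain ⟨S, hS, rfl⟩ := hmem a ha
    refine ⟨univ.filter fun V : J => V.1 ⊆ S, ?_, ?_⟩
    · rw [mem_Lo]
      intro V hV V' hV'
      rw [Finset.mem_filter] at hV ⊢
      exact ⟨Finset.mem_univ _, Finset.Subset.trans hV' hV.2⟩
    · rw [key]
      · congr 1
        apply Finset.prod_congr _ (fun _ _ => rfl)
        ext p
        rw [Finset.mem_sup]
        constructor
        · rintro ⟨V, hV, hpV⟩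
          exact (Finset.mem_filter.1 hV).2 hpV
        · intro hp
          have hpP := hsubP S hS hp
          exact ⟨⟨U p, Finset.mem_image_of_mem U hpP⟩,
            Finset.mem_filter.2 ⟨Finset.mem_univ _, hU3 p hpP S hS hp⟩, hU2 p hpP⟩
      · rw [mem_Lo]
        intro V hV V' hV'
        rw [Finset.mem_filter] at hV ⊢
        exact ⟨Finset.mem_univ _, Finset.Subset.trans hV' hV.2⟩
  · rintro ⟨D, hD, rfl⟩
    rw [key D hD]
    apply hmem'
    apply Finset.sup_mem 𝓐 hbot hsup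
    intro V _
    obtain ⟨q, hq, hqV⟩ := Finset.mem_image.1 V.2
    exact hqV ▸ hU1 q hq

end Pool.Agent.T2h42.Lat
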