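import Pool.Agent.T2h42.Lat.Basic

/-!
Tuples of lower sets: multiplicities and the number of tuples with the same multiplicities.
-/

set_option autoImplicit false
set_option linter.unusedSectionVars false

namespace Pool.Agent.T2h42.Lat

open Finset
open scoped Classical

variable {J : Type} [Fintype J] [PartialOrder J] {κ : Type} [Fintype κ]

/-- tuples of lower sets -/
noncomputable def Tu (J : Type) [Fintype J] [PartialOrder J] (κ : Type) [Fintype κ] :
    Finset (κ → Finset J) :=
  Fintype.piFinset fun _ => Lo J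

theorem mem_Tu {x : κ → Finset J} : x ∈ Tu J κ ↔ ∀ i, x i ∈ Lo J := by
  simp [Tu, Fintype.mem_piFinset]

theorem card_Tu : (Tu J κ).card = (Lo J).card ^ Fintype.card κ := by
  rw [Tu, Fintype.card_piFinset]
  simp

/-- the indices of the members containing `j` -/
noncomputable def si (x : κ → Finset J) (j : J) : Finset κ := univ.filter fun i => j ∈ x i

theorem mem_si {x : κ → Finset J} {j : J} {i : κ} : i ∈ si x j ↔ j ∈ x i := by simp [si]

/-- the multiplicity of `j` -/
noncomputable def mult (x : κ → Finset J) (j : J) : ℕ := (si x j).card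

/-- the tuples with the same multiplicities -/
noncomputable def rep (x : κ → Finset J) : Finset (κ → Finset J) :=
  (Tu J κ).filter fun y => mult y = mult x

/-- intersection -/
noncomputable def Int' (x : κ → Finset J) : Finset J := univ.filter fun j => ∀ i, j ∈ x i

/-- union -/
noncomputable def Uni (x : κ → Finset J) : Finset J := univ.filter fun j => ∃ i, j ∈ x i

theorem mem_Int' {x : κ → Finset J} {j : J} : j ∈ Int' x ↔ ∀ i, j ∈ x i := by simp [Int']

theorem mem_Uni {x : κ → Finset J} {j : J} : j ∈ Uni x ↔ ∃ i, j ∈ x i := by simp [Uni]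

theorem Int'_mem {x : κ → Finset J} (hx : x ∈ Tu J κ) : Int' x ∈ Lo J := by
  rw [mem_Lo]
  intro a ha b hb
  rw [mem_Int'] at ha ⊢
  exact fun i => mem_Lo.1 (mem_Tu.1 hx i) a (ha i) b hb

theorem Uni_mem {x : κ → Finset J} (hx : x ∈ Tu J κ) : Uni x ∈ Lo J := by
  rw [mem_Lo]
  intro a ha b hb
  rw [mem_Uni] at ha ⊢
  obtain ⟨i, hi⟩ := ha
  exact ⟨i, mem_Lo.1 (mem_Tu.1 hx i) a hi b hb⟩

theorem si_anti {x : κ → Finset J} (hx : x ∈ Tu J κ) {a b : J} (h : b ≤ a) : si x a ⊆ si x b := by
  intro i hi
  rw [mem_si] at hi ⊢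
  exact mem_Lo.1 (mem_Tu.1 hx i) a hi b h

theorem mult_anti {x : κ → Finset J} (hx : x ∈ Tu J κ) {a b : J} (h : b ≤ a) :
    mult x a ≤ mult x b := Finset.card_le_card (si_anti hx h)

/-- linked elements -/
def E (m : J → ℕ) (a b : J) : Prop := Relation.EqvGen (fun a b => a ≤ b ∧ m a = m b) a b

theorem E_equiv (m : J → ℕ) : Equivalence (E m) := Relation.EqvGen.is_equivalence _

theorem si_eq {x : κ → Finset J} (hx : x ∈ Tu J κ) {a b : J} (h : E (mult x) a b) :
    si x a = si x b := by
  induction h with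
  | rel a b h =>
    exact (Finset.eq_of_subset_of_card_le (si_anti hx h.1) (le_of_eq h.2)).symm
  | refl a => rfl
  | symm a b _ ih => exact ih.symm
  | trans a b c _ _ ih1 ih2 => exact ih1.trans ih2

/-- the class of an element -/
noncomputable def cl (m : J → ℕ) (a : J) : Finset J := univ.filter fun b => E m a b

theorem mem_cl {m : J → ℕ} {a b : J} : b ∈ cl m a ↔ E m a b := by simp [cl]

theorem self_mem_cl {m : J → ℕ} {a : J} : a ∈ cl m a := mem_cl.2 ((E_equiv m).refl a)

theorem cl_eq {m : J → ℕ} {a b : J} (h : E m a b) : cl m a = cl m b := by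
  ext c
  rw [mem_cl, mem_cl]
  exact ⟨fun h' => (E_equiv m).trans ((E_equiv m).symm h) h', fun h' => (E_equiv m).trans h h'⟩

/-- the classes on which the tuple is the set `I` of indices -/
noncomputable def cls (x : κ → Finset J) (I : Finset κ) : Finset (Finset J) :=
  (univ.filter fun j => si x j = I).image (cl (mult x))

/-- all classes with an intermediate multiplicity -/
noncomputable def clsAll (x : κ → Finset J) : Finset (Finset J) :=
  (univ.filter fun j => mult x j ≠ 0 ∧ mult x j ≠ Fintype.card κ).image (cl (mult x))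

theorem mult_eq_zero {x : κ → Finset J} {j : J} : mult x j = 0 ↔ si x j = ∅ :=
  Finset.card_eq_zero

theorem mult_eq_card {x : κ → Finset J} {j : J} : mult x j = Fintype.card κ ↔ si x j = univ :=
  Finset.card_eq_iff_eq_univ _

/-- few tuples with the same multiplicities if there are few classes -/
theorem rep_card {x : κ → Finset J} (_ : x ∈ Tu J κ) :
    (rep x).card ≤ (2 ^ Fintype.card κ) ^ (clsAll x).card := by
  have h0 : ((clsAll x).pi fun _ => (univ : Finset (Finset κ))).card =
      (2 ^ Fintype.card κ) ^ (clsAll x).card := by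
    rw [Finset.card_pi]
    simp
  rw [← h0]
  apply Finset.card_le_card_of_injOn (fun y C _ => C.biUnion (si y))
  · intro y _
    rw [Finset.mem_coe, Finset.mem_pi]
    intro C _
    exact Finset.mem_univ _
  · intro y hy y' hy' h
    obtain ⟨hyT, hym⟩ := Finset.mem_filter.1 (Finset.mem_coe.1 hy)
    obtain ⟨hyT', hym'⟩ := Finset.mem_filter.1 (Finset.mem_coe.1 hy')
    have key : ∀ z ∈ rep x, ∀ j, (cl (mult x) j).biUnion (si z) = si z j := by
      intro z hz j
      obtain ⟨hzT, hzm⟩ := Finset.mem_filter.1 hz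
      ext i
      rw [Finset.mem_biUnion]
      constructor
      · rintro ⟨a, ha, hi⟩
        rw [mem_cl, ← hzm] at ha
        rwa [si_eq hzT ha]
      · intro hi
        exact ⟨j, self_mem_cl, hi⟩
    have hs : ∀ j, si y j = si y' j := by
      intro j
      by_cases h1 : mult x j = 0
      · rw [mult_eq_zero.1 (by rw [hym, h1]), mult_eq_zero.1 (by rw [hym', h1])]
      · by_cases h2 : mult x j = Fintype.card κ
        · rw [mult_eq_card.1 (by rw [hym, h2]), mult_eq_card.1 (by rw [hym', h2])]
        · have hC : cl (mult x) j ∈ clsAll x :=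
            Finset.mem_image_of_mem _ (Finset.mem_filter.2 ⟨Finset.mem_univ _, h1, h2⟩)
          have h3 := congrFun (congrFun h (cl (mult x) j)) hC
          simp only at h3
          rw [key y hy j, key y' hy' j] at h3
          exact h3
    funext i
    ext j
    have h1 : i ∈ si y j ↔ i ∈ si y' j := by rw [hs j]
    rwa [mem_si, mem_si] at h1

theorem clsAll_sub (x : κ → Finset J) :
    clsAll x ⊆ (univ.filter fun I : Finset κ => I ≠ ∅ ∧ I ≠ univ).biUnion (cls x) := by
  intro C hC
  obtain ⟨j, hj, rfl⟩ := Finset.mem_image.1 hC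
  obtain ⟨_, h1, h2⟩ := Finset.mem_filter.1 hj
  rw [Finset.mem_biUnion]
  refine ⟨si x j, Finset.mem_filter.2 ⟨Finset.mem_univ _, ?_, ?_⟩, ?_⟩
  · intro h; exact h1 (mult_eq_zero.2 h)
  · intro h; exact h2 (mult_eq_card.2 h)
  · exact Finset.mem_image_of_mem _ (Finset.mem_filter.2 ⟨Finset.mem_univ _, rfl⟩)

/-- small classes give addable elements near the top -/
theorem cls_card {x : κ → Finset J} (hx : x ∈ Tu J κ) (I : Finset κ) (M : ℕ) :
    ((cls x I).card : ℝ) ≤
      ((Top M (Int' fun i : {i // i ∈ I} => x i) ∩ Up (Uni fun i : {i // i ∉ I} => x i)).card : ℝ)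
        + Real.log (Lo J).card / Real.log (M + 2) := by
  set P := Int' fun i : {i // i ∈ I} => x i with hP
  set Q := Uni fun i : {i // i ∉ I} => x i with hQ
  have hQL : Q ∈ Lo J := Uni_mem (mem_Tu.2 fun i => mem_Tu.1 hx i)
  have hPL : P ∈ Lo J := Int'_mem (mem_Tu.2 fun i => mem_Tu.1 hx i)
  have hV : ∀ j, si x j = I ↔ j ∈ P ∧ j ∉ Q := by
    intro j
    rw [hP, hQ, mem_Int', mem_Uni]
    constructor
    · intro h
      refine ⟨fun i => ?_, ?_⟩
      · have : (i : κ) ∈ si x j := by rw [h]; exact i.2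
        exact mem_si.1 this
      · rintro ⟨i, hi⟩
        have h' := mem_si.2 hi
        rw [h] at h'
        exact i.2 h'
    · rintro ⟨h1, h2⟩
      ext i
      rw [mem_si]
      constructor
      · intro hi
        by_contra hiI
        exact h2 ⟨⟨i, hiI⟩, hi⟩
      · intro hi
        exact h1 ⟨i, hi⟩
  -- facts on classes
  have hcl : ∀ C ∈ cls x I, ∀ a ∈ C, si x a = I ∧ C = cl (mult x) a := by
    intro C hC a ha
    obtain ⟨j, hj, rfl⟩ := Finset.mem_image.1 hC
    have hj' := (Finset.mem_filter.1 hj).2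
    rw [mem_cl] at ha
    exact ⟨by rw [← si_eq hx ha, hj'], cl_eq ha⟩
  have hdown : ∀ C ∈ cls x I, ∀ a ∈ C, ∀ b, b ≤ a → b ∈ Q ∨ b ∈ C := by
    intro C hC a ha b hb
    by_cases hbQ : b ∈ Q
    · exact Or.inl hbQ
    · right
      obtain ⟨h1, h2⟩ := hcl C hC a ha
      have h3 : b ∈ P := mem_Lo.1 hPL a ((hV a).1 h1).1 b hb
      have h4 : si x b = I := (hV b).2 ⟨h3, hbQ⟩
      rw [h2, mem_cl]
      apply (E_equiv (mult x)).symm
      apply Relation.EqvGen.rel
      exact ⟨hb, by rw [mult, mult, h4, h1]⟩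
  have hup : ∀ C ∈ cls x I, ∀ a ∈ C, ∀ b, a ≤ b → b ∈ P → b ∈ C := by
    intro C hC a ha b hb hbP
    obtain ⟨h1, h2⟩ := hcl C hC a ha
    have h3 : b ∉ Q := fun h => ((hV a).1 h1).2 (mem_Lo.1 hQL b h a hb)
    have h4 : si x b = I := (hV b).2 ⟨hbP, h3⟩
    rw [h2, mem_cl]
    apply Relation.EqvGen.rel
    exact ⟨hb, by rw [mult, mult, h4, h1]⟩
  have hdisj : ∀ C ∈ cls x I, ∀ C' ∈ cls x I, C ≠ C' → Disjoint C C' := by
    intro C hC C' hC' hne
    rw [Finset.disjoint_left]
    intro a ha ha'
    exact hne ((hcl C hC a ha).2.trans (hcl C' hC' a ha').2.symm)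
  have hnonempty : ∀ C ∈ cls x I, C.Nonempty := by
    intro C hC
    obtain ⟨j, hj, rfl⟩ := Finset.mem_image.1 hC
    exact ⟨j, self_mem_cl⟩
  -- large classes
  have hbig : ((((cls x I).filter fun C => M < C.card).card : ℕ) : ℝ) ≤
      Real.log (Lo J).card / Real.log (M + 2) := by
    have h1 := prod_le_card' hQL ((cls x I).filter fun C => M < C.card) id
      (fun C hC a ha => ((hV a).1 (hcl C (Finset.mem_filter.1 hC).1 a ha).1).2)
      (fun C hC => hdown C (Finset.mem_filter.1 hC).1)
      (fun C hC C' hC' => hdisj C (Finset.mem_filter.1 hC).1 C' (Finset.mem_filter.1 hC').1)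
    have h2 : (M + 2) ^ ((cls x I).filter fun C => M < C.card).card ≤
        ∏ C ∈ (cls x I).filter (fun C => M < C.card), ((id C : Finset J).card + 1) := by
      rw [← Finset.prod_const]
      apply Finset.prod_le_prod' 
      intro C hC
      have := (Finset.mem_filter.1 hC).2
      simp only [id]
      omega
    have h3 : ((M : ℝ) + 2) ^ ((cls x I).filter fun C => M < C.card).card ≤ (Lo J).card := by
      exact_mod_cast h2.trans h1
    have h4 := Real.log_le_log (by positivity) h3
    rw [Real.log_pow] at h4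
    have h5 : 0 < Real.log ((M : ℝ) + 2) := Real.log_pos (by
      have : (0 : ℝ) ≤ M := Nat.cast_nonneg _
      linarith)
    rw [le_div_iff₀ h5]
    exact h4
  -- small classes
  have hsmall : ((cls x I).filter fun C => ¬ M < C.card).card ≤ (Top M P ∩ Up Q).card := by
    have hmin : ∀ C ∈ (cls x I).filter (fun C => ¬ M < C.card), ∃ j ∈ C, j ∈ Top M P ∩ Up Q := by
      intro C hC
      obtain ⟨hC1, hC2⟩ := Finset.mem_filter.1 hC
      obtain ⟨j, hj⟩ := Finset.exists_minimal (hnonempty C hC1)
      refine ⟨j, hj.prop, ?_⟩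
      obtain ⟨h1, h2⟩ := hcl C hC1 j hj.prop
      rw [Finset.mem_inter]
      constructor
      · rw [Top, Finset.mem_filter]
        refine ⟨((hV j).1 h1).1, ?_⟩
        refine le_trans (Finset.card_le_card ?_) (not_lt.1 hC2)
        intro b hb
        obtain ⟨hbP, hjb⟩ := Finset.mem_filter.1 hb
        exact hup C hC1 j hj.prop b hjb hbP
      · rw [mem_Up]
        refine ⟨((hV j).1 h1).2, fun b hb => ?_⟩
        rcases hdown C hC1 j hj.prop b hb.le with h | h
        · exact h
        · exact absurd (hj.le_of_le h hb.le) (not_le_of_gt hb)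
    rcases isEmpty_or_nonempty J with hJ | hJ
    · have : (cls x I).filter (fun C => ¬ M < C.card) = ∅ := by
        rw [Finset.eq_empty_iff_forall_notMem]
        intro C hC
        obtain ⟨j, _, _⟩ := hmin C hC
        exact hJ.elim j
      rw [this]
      simp
    choose! f hf1 hf2 using hmin
    apply Finset.card_le_card_of_injOn f
    · intro C hC
      exact hf2 C hC
    · intro C hC C' hC' h
      by_contra hne
      have h1 := hf1 C hC
      have h2 := hf1 C' hC'
      rw [← h] at h2
      exact Finset.disjoint_left.1 (hdisj C (Finset.mem_filter.1 hC).1 C'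
        (Finset.mem_filter.1 hC').1 hne) h1 h2
  have htot := Finset.card_filter_add_card_filter_not (s := cls x I) (fun C => M < C.card)
  have : ((cls x I).card : ℝ) = (((cls x I).filter fun C => M < C.card).card : ℝ) +
      (((cls x I).filter fun C => ¬ M < C.card).card : ℝ) := by exact_mod_cast htot.symm
  rw [this]
  have h6 : (((cls x I).filter fun C => ¬ M < C.card).card : ℝ) ≤ ((Top M P ∩ Up Q).card : ℝ) := by
    exact_mod_cast hsmall
  linarith

/-- many tuples with the same multiplicities give many addable elements near the top -/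
theorem exists_part {x : κ → Finset J} (hx : x ∈ Tu J κ) (M : ℕ) {η : ℝ}
    (h0 : 0 < η * Real.log (Lo J).card)
    (h : Real.exp (η * Real.log (Lo J).card) ≤ (rep x).card) :
    ∃ I : Finset κ, I ≠ ∅ ∧ I ≠ univ ∧
      η * Real.log (Lo J).card ≤ (Fintype.card κ * 2 ^ Fintype.card κ) *
        (((Top M (Int' fun i : {i // i ∈ I} => x i) ∩ Up (Uni fun i : {i // i ∉ I} => x i)).card
          : ℝ) + Real.log (Lo J).card / Real.log (M + 2)) := by
  have h1 : (clsAll x).card ≤ ∑ I ∈ univ.filter (fun I : Finset κ => I ≠ ∅ ∧ I ≠ univ),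
      (cls x I).card := (Finset.card_le_card (clsAll_sub x)).trans Finset.card_biUnion_le
  have h2 : Real.exp (η * Real.log (Lo J).card) ≤
      ((2 : ℝ) ^ Fintype.card κ) ^ (clsAll x).card := by
    refine h.trans ?_
    exact_mod_cast rep_card hx
  have h3 := Real.log_le_log (Real.exp_pos _) h2
  rw [Real.log_exp, Real.log_pow, Real.log_pow] at h3
  have hl2 : Real.log 2 ≤ 1 := by
    have := Real.log_two_lt_d9
    linarith
  have hl20 : 0 ≤ Real.log 2 := Real.log_nonneg (by norm_num)
  by_contra hcon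
  push Not at hcon
  set L := Real.log (Lo J).card with hL
  set k := Fintype.card κ with hk
  have hkpos : 0 < k := by
    rcases Nat.eq_zero_or_pos k with h | h
    · rw [h] at h3
      simp only [Nat.cast_zero, zero_mul, mul_zero] at h3
      linarith
    · exact h
  -- every `I` has few classes
  have h4 : ∀ I ∈ univ.filter (fun I : Finset κ => I ≠ ∅ ∧ I ≠ univ),
      (((cls x I).card : ℕ) : ℝ) ≤ η * L / (k * 2 ^ k) := by
    intro I hI
    obtain ⟨_, hI1, hI2⟩ := Finset.mem_filter.1 hI
    have h5 := hcon I (Finset.nonempty_iff_ne_empty.2 hI1) hI2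
    have h6 := cls_card hx I M
    rw [le_div_iff₀ (by positivity)]
    have h7 : ((k : ℝ) * 2 ^ k) * ((cls x I).card : ℝ) ≤ (k * 2 ^ k) *
        (((Top M (Int' fun i : {i // i ∈ I} => x i) ∩ Up (Uni fun i : {i // i ∉ I} => x i)).card
          : ℝ) + L / Real.log (M + 2)) := mul_le_mul_of_nonneg_left h6 (by positivity)
    linarith
  have hne : (univ.filter fun I : Finset κ => I ≠ ∅ ∧ I ≠ univ).card + 1 ≤ 2 ^ k := by
    have h8 : (univ.filter fun I : Finset κ => I ≠ ∅ ∧ I ≠ univ) ⊆ univ.erase (∅ : Finset κ) := by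
      intro I hI
      rw [Finset.mem_erase]
      exact ⟨(Finset.mem_filter.1 hI).2.1, Finset.mem_univ _⟩
    have h9 := Finset.card_le_card h8
    rw [Finset.card_erase_of_mem (Finset.mem_univ _), Finset.card_univ, Fintype.card_finset] at h9
    have h10 : 0 < 2 ^ Fintype.card κ := by positivity
    rw [hk]
    omega
  have h5 : ((clsAll x).card : ℝ) ≤ (univ.filter fun I : Finset κ => I ≠ ∅ ∧ I ≠ univ).card *
      (η * L / (k * 2 ^ k)) := by
    calc ((clsAll x).card : ℝ) ≤ ∑ I ∈ univ.filter (fun I : Finset κ => I ≠ ∅ ∧ I ≠ univ),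
        (((cls x I).card : ℕ) : ℝ) := by exact_mod_cast h1
      _ ≤ ∑ I ∈ univ.filter (fun I : Finset κ => I ≠ ∅ ∧ I ≠ univ), η * L / (k * 2 ^ k) :=
        Finset.sum_le_sum h4
      _ = _ := by rw [Finset.sum_const, nsmul_eq_mul]
  have h6 : ((univ.filter fun I : Finset κ => I ≠ ∅ ∧ I ≠ univ).card : ℝ) + 1 ≤ 2 ^ k := by
    exact_mod_cast hne
  have hpos : 0 < η * L / (k * 2 ^ k) := by positivity
  have h7 : ((clsAll x).card : ℝ) < 2 ^ k * (η * L / (k * 2 ^ k)) := by nlinarith
  have h8 : (2 : ℝ) ^ k * (η * L / (k * 2 ^ k)) = η * L / k := by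
    field_simp
  rw [h8] at h7
  have h9 : ((clsAll x).card : ℝ) * (k * Real.log 2) < η * L := by
    have hc0 : (0 : ℝ) ≤ ((clsAll x).card : ℝ) := Nat.cast_nonneg _
    have hk' : (0 : ℝ) < k := by exact_mod_cast hkpos
    have h10 : ((clsAll x).card : ℝ) * k < η * L := by
      rwa [lt_div_iff₀ hk'] at h7
    have h11 : ((clsAll x).card : ℝ) * (k * Real.log 2) ≤ ((clsAll x).card : ℝ) * k := by
      apply mul_le_mul_of_nonneg_left _ hc0
      nlinarith
    linarith
  linarith

end Pool.Agent.T2h42.Lat
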