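import Mathlib

/-!
Sets of positive integers closed under greatest common divisors and least common multiples.
-/

set_option autoImplicit false

namespace Pool.Agent.T2h42.Lat

/-- a nonempty finite set of positive integers closed under greatest common divisors and least
common multiples, such that `b / a` is squarefree whenever `a, b` are members with `a ∣ b` -/
def SqLattice (A : Finset ℕ) : Prop :=
  A.Nonempty ∧ (∀ a ∈ A, 0 < a) ∧ (∀ a ∈ A, ∀ b ∈ A, Nat.gcd a b ∈ A ∧ Nat.lcm a b ∈ A) ∧
    ∀ a ∈ A, ∀ b ∈ A, a ∣ b → Squarefree (b / a)

end Pool.Agent.T2h42.Lat
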