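import Pool.Agent.T2h42.Lat.Comp

/-!
Without many free addable sets, few tuples of lower sets have many representations.
-/

set_option autoImplicit false
set_option linter.unusedSectionVars false

namespace Pool.Agent.T2h42.Lat

open Finset
open scoped Classical

variable {J : Type} [Fintype J] [PartialOrder J] {κ : Type} [Fintype κ]

theorem choose_bound {n s : ℕ} {y Λ : ℝ} (hy : 0 < y) (hΛ : 1 ≤ Λ) (hn : (n : ℝ) ≤ Λ * y)
    (hs : (s : ℝ) ≤ y + 1) : (n.choose s : ℝ) ≤ Real.exp ((y + 1) * Real.log Λ + y) := by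
  have h1 : (n.choose s : ℝ) ≤ (n : ℝ) ^ s / (s.factorial : ℝ) := Nat.choose_le_pow_div s n
  have hf : (0 : ℝ) < s.factorial := by exact_mod_cast Nat.factorial_pos s
  have h2 : y ^ s / (s.factorial : ℝ) ≤ Real.exp y := Real.pow_div_factorial_le_exp y hy.le s
  have h3 : (n : ℝ) ^ s ≤ Λ ^ s * y ^ s := by
    rw [← mul_pow]
    exact pow_le_pow_left₀ (Nat.cast_nonneg n) hn s
  have h4 : Λ ^ s ≤ Real.exp ((y + 1) * Real.log Λ) := by
    have h5 : Λ ^ s = Real.exp (s * Real.log Λ) := by
      rw [← Real.log_pow, Real.exp_log (by positivity)]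
    rw [h5]
    exact Real.exp_le_exp.2 (mul_le_mul_of_nonneg_right hs (Real.log_nonneg hΛ))
  calc (n.choose s : ℝ) ≤ (n : ℝ) ^ s / (s.factorial : ℝ) := h1
    _ ≤ (Λ ^ s * y ^ s) / (s.factorial : ℝ) := by
        apply div_le_div_of_nonneg_right h3 hf.le
    _ = Λ ^ s * (y ^ s / (s.factorial : ℝ)) := by ring
    _ ≤ Real.exp ((y + 1) * Real.log Λ) * Real.exp y :=
        mul_le_mul h4 h2 (by positivity) (Real.exp_pos _).le
    _ = _ := by rw [← Real.exp_add]

/-- the number of multiplicity functions -/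
theorem image_mult_card (k' : ℕ) (hk : Fintype.card κ = k' + 1) (S : Finset J)
    (V : Finset (κ → Finset J)) (hV : ∀ v ∈ V, v ∈ Tu J κ) (hVS : ∀ v ∈ V, S ⊆ Up (Uni v)) :
    (V.image mult).card ≤ ((Lo J).filter fun D => S ⊆ Up D).card * (Lo J).card ^ k' := by
  have h0 : (Fintype.piFinset fun t : Fin (k' + 1) =>
      if t = 0 then ((Lo J).filter fun D => S ⊆ Up D) else Lo J).card =
      ((Lo J).filter fun D => S ⊆ Up D).card * (Lo J).card ^ k' := by
    rw [Fintype.card_piFinset, Fin.prod_univ_succ]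
    simp [Fin.succ_ne_zero]
  rw [← h0]
  apply Finset.card_le_card_of_injOn (fun m (t : Fin (k' + 1)) => univ.filter fun j => (t : ℕ) < m j)
  · intro m hm
    obtain ⟨v, hv, rfl⟩ := Finset.mem_image.1 (Finset.mem_coe.1 hm)
    rw [Finset.mem_coe, Fintype.mem_piFinset]
    intro t
    have hlow : (univ.filter fun j => (t : ℕ) < mult v j) ∈ Lo J := by
      rw [mem_Lo]
      intro a ha b hb
      rw [Finset.mem_filter] at ha ⊢
      exact ⟨Finset.mem_univ _, lt_of_lt_of_le ha.2 (mult_anti (hV v hv) hb)⟩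
    by_cases ht : t = 0
    · rw [if_pos ht, Finset.mem_filter]
      refine ⟨hlow, ?_⟩
      have : (univ.filter fun j => (t : ℕ) < mult v j) = Uni v := by
        ext j
        rw [Finset.mem_filter, mem_Uni, ht]
        simp only [Finset.mem_univ, true_and, Fin.val_zero]
        rw [mult, Finset.card_pos]
        constructor
        · rintro ⟨i, hi⟩
          exact ⟨i, mem_si.1 hi⟩
        · rintro ⟨i, hi⟩
          exact ⟨i, mem_si.2 hi⟩
      change S ⊆ Up (univ.filter fun j => (t : ℕ) < mult v j)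
      rw [this]
      exact hVS v hv
    · rw [if_neg ht]
      exact hlow
  · intro m hm m' hm' h
    obtain ⟨v, hv, rfl⟩ := Finset.mem_image.1 (Finset.mem_coe.1 hm)
    obtain ⟨v', hv', rfl⟩ := Finset.mem_image.1 (Finset.mem_coe.1 hm')
    funext j
    have hb : mult v j ≤ k' + 1 := by rw [← hk]; exact Finset.card_le_univ _
    have hb' : mult v' j ≤ k' + 1 := by rw [← hk]; exact Finset.card_le_univ _
    have key : ∀ t, t < k' + 1 → (t < mult v j ↔ t < mult v' j) := by
      intro t ht
      have h1 := congrFun h ⟨t, ht⟩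
      simp only at h1
      have h2 : j ∈ (univ.filter fun j => t < mult v j) ↔ j ∈ (univ.filter fun j => t < mult v' j) := by
        rw [h1]
      simpa using h2
    rcases lt_trichotomy (mult v j) (mult v' j) with h1 | h1 | h1
    · have := (key (mult v j) (by omega)).2 h1
      omega
    · exact h1
    · have := (key (mult v' j) (by omega)).1 h1
      omega

/-- few representations -/
theorem card_le_image {V : Finset (κ → Finset J)} (hV : ∀ v ∈ V, v ∈ Tu J κ) {R : ℝ}
    (hR : ∀ v ∈ V, ((rep v).card : ℝ) ≤ R) : (V.card : ℝ) ≤ (V.image mult).card * R := by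
  rw [Finset.card_eq_sum_card_image mult V]
  push_cast
  rw [← nsmul_eq_mul]
  apply Finset.sum_le_card_nsmul
  intro m hm
  obtain ⟨v, hv, rfl⟩ := Finset.mem_image.1 hm
  refine le_trans ?_ (hR v hv)
  have : (V.filter fun w => mult w = mult v) ⊆ rep v := by
    intro w hw
    obtain ⟨h1, h2⟩ := Finset.mem_filter.1 hw
    exact Finset.mem_filter.2 ⟨hV w h1, h2⟩
  exact_mod_cast Finset.card_le_card this

/-- no large set can be freely added to many lower sets -/
def NoTog (J : Type) [Fintype J] [PartialOrder J] (θ δ : ℝ) : Prop :=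
  ∀ S : Finset J, θ * Real.log (Lo J).card ≤ S.card →
    (((Lo J).filter fun D => S ⊆ Up D).card : ℝ) < Real.exp ((1 - δ) * Real.log (Lo J).card)

theorem NoTog.mono {θ θ' δ : ℝ} (h : NoTog J θ δ) (hθ : θ ≤ θ') : NoTog J θ' δ := by
  intro S hS
  apply h S
  have : 0 ≤ Real.log (Lo J).card := Real.log_natCast_nonneg _
  nlinarith

/-- the tuples with many representations -/
noncomputable def Bad (J : Type) [Fintype J] [PartialOrder J] (κ : Type) [Fintype κ] (η : ℝ) :
    Finset (κ → Finset J) :=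
  (Tu J κ).filter fun x => Real.exp (η * Real.log (Lo J).card) ≤ (rep x).card

theorem bad_empty [IsEmpty κ] {η : ℝ} (hη : 0 < η * Real.log (Lo J).card) :
    Bad J κ η = ∅ := by
  rw [Finset.eq_empty_iff_forall_notMem]
  intro x hx
  obtain ⟨h1, h2⟩ := Finset.mem_filter.1 hx
  obtain ⟨I, hI, _⟩ := exists_part h1 0 hη h2
  exact hI (Finset.eq_empty_of_isEmpty I)

theorem exists_theta {M c : ℝ} (hc : 0 < c) {θ' : ℝ} (hθ' : 0 < θ') (hM : 1 ≤ M) :
    ∃ θ : ℝ, 0 < θ ∧ θ ≤ θ' ∧ θ ≤ 1 ∧ θ * (1 + Real.log (M / θ)) ≤ c := by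
  have hcont : Continuous fun θ : ℝ => θ * (1 + Real.log M) + Real.negMulLog θ := by
    exact (continuous_id.mul continuous_const).add Real.continuous_negMulLog
  have h1 : Filter.Tendsto (fun θ : ℝ => θ * (1 + Real.log M) + Real.negMulLog θ) (nhds 0)
      (nhds 0) := by
    have := hcont.tendsto 0
    simpa using this
  have h2 := (h1.eventually (gt_mem_nhds hc)).filter_mono (nhdsWithin_le_nhds (s := Set.Ioi 0))
  have h3 : ∀ᶠ θ : ℝ in nhdsWithin 0 (Set.Ioi 0), θ < min θ' 1 :=
    (gt_mem_nhds (by positivity : (0 : ℝ) < min θ' 1)).filter_mono nhdsWithin_le_nhds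
  have h4 : ∀ᶠ θ : ℝ in nhdsWithin 0 (Set.Ioi 0), θ ∈ Set.Ioi (0 : ℝ) := self_mem_nhdsWithin
  obtain ⟨θ, ⟨h5, h6⟩, h7⟩ := ((h2.and h3).and h4).exists
  have h7' : 0 < θ := h7
  refine ⟨θ, h7', (h6.le.trans (min_le_left _ _)), (h6.le.trans (min_le_right _ _)), ?_⟩
  rw [Real.log_div (by linarith) (by positivity)]
  simp only [Real.negMulLog] at h5
  nlinarith

/-- the tuples with free addable elements -/
theorem part_card {M : ℕ} {θ δs δ₁ L : ℝ} (hL : L = Real.log (Lo J).card) (hθ0 : 0 < θ)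
    (hθL : 0 < θ * L)
    {Λ : ℝ} (hΛ1 : 1 ≤ Λ) (hΛ : M * (L / Real.log 2) ≤ Λ * (θ * L)) (hN : NoTog J θ δs)
    (hδs : 0 < δs) {k' : ℕ} (hk : Fintype.card κ = k' + 1)
    (hB : ((Bad J κ (δs / 2)).card : ℝ) ≤ Real.exp ((Fintype.card κ - δ₁) * L)) (P : Finset J) :
    (((Tu J κ).filter fun v => θ * L ≤ ((Top M P ∩ Up (Uni v)).card : ℝ)).card : ℝ) ≤
      Real.exp ((θ * L + 1) * Real.log Λ + θ * L) *
        (2 * Real.exp ((Fintype.card κ - min δ₁ (δs / 2)) * L)) := by
  have hL0 : 0 ≤ L := by rw [hL]; exact Real.log_natCast_nonneg _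
  set s := ⌈θ * L⌉₊ with hs
  have hNL : ((Lo J).card : ℝ) = Real.exp L := by
    rw [hL, Real.exp_log]
    exact_mod_cast card_Lo_pos
  -- each `S`
  have hS : ∀ S ∈ Finset.powersetCard s (Top M P),
      (((Tu J κ).filter fun v => S ⊆ Up (Uni v)).card : ℝ) ≤
        2 * Real.exp ((Fintype.card κ - min δ₁ (δs / 2)) * L) := by
    intro S hS
    have hSc : S.card = s := (Finset.mem_powersetCard.1 hS).2
    set V := (Tu J κ).filter fun v => S ⊆ Up (Uni v) with hV
    set V' := V.filter fun v => ¬ Real.exp (δs / 2 * Real.log (Lo J).card) ≤ (rep v).card with hV'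
    have h1 : V ⊆ Bad J κ (δs / 2) ∪ V' := by
      intro v hv
      rw [Finset.mem_union]
      by_cases h : Real.exp (δs / 2 * Real.log (Lo J).card) ≤ (rep v).card
      · left
        exact Finset.mem_filter.2 ⟨(Finset.mem_filter.1 hv).1, h⟩
      · right
        exact Finset.mem_filter.2 ⟨hv, h⟩
    have h2 : (V.card : ℝ) ≤ (Bad J κ (δs / 2)).card + V'.card := by
      exact_mod_cast (Finset.card_le_card h1).trans (Finset.card_union_le _ _)
    have h3 : (V'.card : ℝ) ≤ (V'.image mult).card * Real.exp (δs / 2 * L) := by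
      apply card_le_image
      · intro v hv
        exact (Finset.mem_filter.1 (Finset.mem_filter.1 hv).1).1
      · intro v hv
        rw [hL]
        exact (not_le.1 (Finset.mem_filter.1 hv).2).le
    have h4 := image_mult_card k' hk S V'
      (fun v hv => (Finset.mem_filter.1 (Finset.mem_filter.1 hv).1).1)
      (fun v hv => (Finset.mem_filter.1 (Finset.mem_filter.1 hv).1).2)
    have h5 : (((Lo J).filter fun D => S ⊆ Up D).card : ℝ) < Real.exp ((1 - δs) * L) := by
      have := hN S (by rw [hSc, hs, ← hL]; exact Nat.le_ceil _)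
      rwa [← hL] at this
    have h6 : ((V'.image mult).card : ℝ) ≤ Real.exp ((1 - δs) * L) * Real.exp (k' * L) := by
      calc ((V'.image mult).card : ℝ) ≤
          (((Lo J).filter fun D => S ⊆ Up D).card : ℝ) * ((Lo J).card : ℝ) ^ k' := by
            rw [← Nat.cast_pow, ← Nat.cast_mul]
            exact Nat.cast_le.2 h4
        _ ≤ Real.exp ((1 - δs) * L) * ((Lo J).card : ℝ) ^ k' :=
          mul_le_mul_of_nonneg_right h5.le (pow_nonneg (Nat.cast_nonneg _) _)
        _ = _ := by rw [hNL, ← Real.exp_nat_mul]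
    have h7 : (V'.card : ℝ) ≤ Real.exp ((Fintype.card κ - min δ₁ (δs / 2)) * L) := by
      calc (V'.card : ℝ) ≤ (V'.image mult).card * Real.exp (δs / 2 * L) := h3
        _ ≤ (Real.exp ((1 - δs) * L) * Real.exp (k' * L)) * Real.exp (δs / 2 * L) :=
          mul_le_mul_of_nonneg_right h6 (Real.exp_pos _).le
        _ = Real.exp ((Fintype.card κ - δs / 2) * L) := by
          rw [← Real.exp_add, ← Real.exp_add, hk]
          congr 1
          push_cast
          ring
        _ ≤ _ := by
          apply Real.exp_le_exp.2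
          apply mul_le_mul_of_nonneg_right _ hL0
          have := min_le_right δ₁ (δs / 2)
          linarith
    have h8 : ((Bad J κ (δs / 2)).card : ℝ) ≤
        Real.exp ((Fintype.card κ - min δ₁ (δs / 2)) * L) := by
      refine hB.trans ?_
      apply Real.exp_le_exp.2
      apply mul_le_mul_of_nonneg_right _ hL0
      have := min_le_left δ₁ (δs / 2)
      linarith
    linarith
  -- the union bound
  have hcov : ((Tu J κ).filter fun v => θ * L ≤ ((Top M P ∩ Up (Uni v)).card : ℝ)) ⊆
      (Finset.powersetCard s (Top M P)).biUnion fun S =>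
        (Tu J κ).filter fun v => S ⊆ Up (Uni v) := by
    intro v hv
    obtain ⟨hv1, hv2⟩ := Finset.mem_filter.1 hv
    have h1 : s ≤ (Top M P ∩ Up (Uni v)).card := Nat.ceil_le.2 hv2
    obtain ⟨S, hS1, hS2⟩ := Finset.exists_subset_card_eq h1
    rw [Finset.mem_biUnion]
    refine ⟨S, Finset.mem_powersetCard.2 ⟨hS1.trans Finset.inter_subset_left, hS2⟩, ?_⟩
    exact Finset.mem_filter.2 ⟨hv1, hS1.trans Finset.inter_subset_right⟩
  have hch : (((Finset.powersetCard s (Top M P)).card : ℕ) : ℝ) ≤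
      Real.exp ((θ * L + 1) * Real.log Λ + θ * L) := by
    rw [Finset.card_powersetCard]
    apply choose_bound hθL hΛ1
    · refine le_trans ?_ hΛ
      rw [hL]
      exact card_Top_le M P
    · rw [hs]
      exact (Nat.ceil_lt_add_one hθL.le).le
  calc (((Tu J κ).filter fun v => θ * L ≤ ((Top M P ∩ Up (Uni v)).card : ℝ)).card : ℝ)
      ≤ ∑ S ∈ Finset.powersetCard s (Top M P),
          ((((Tu J κ).filter fun v => S ⊆ Up (Uni v)).card : ℕ) : ℝ) := by
        exact_mod_cast (Finset.card_le_card hcov).trans Finset.card_biUnion_le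
    _ ≤ (Finset.powersetCard s (Top M P)).card •
          (2 * Real.exp ((Fintype.card κ - min δ₁ (δs / 2)) * L)) :=
        Finset.sum_le_card_nsmul _ _ _ hS
    _ = ((Finset.powersetCard s (Top M P)).card : ℝ) *
          (2 * Real.exp ((Fintype.card κ - min δ₁ (δs / 2)) * L)) := by rw [nsmul_eq_mul]
    _ ≤ _ := mul_le_mul_of_nonneg_right hch (by positivity)

end Pool.Agent.T2h42.Lat
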