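import Pool.Agent.T2h42.Lat.Birk
import Pool.Agent.T2h42.Lat.Def

/-!
The final statements on sets closed under greatest common divisors and least common multiples.
-/

set_option autoImplicit false
set_option linter.unusedSectionVars false

namespace Pool.Agent.T2h42.Lat

open Finset
open Pool.Agent.TH83.DC (kSum kSum_ge kSum_cast)
open scoped Classical Pointwise

/-- the logarithmic form of the dichotomy -/
theorem dich_log (k : ℕ) (ε : ℝ) (hε : 0 < ε) (hε1 : ε < 1) :
    ∃ C : ℝ, 0 ≤ C ∧ ∀ (J : Type) [Fintype J] [PartialOrder J] (w : J → ℕ) (a₀ : ℕ), 0 < a₀ →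
      Wt w →
      ((k - ε) * Real.log (LA a₀ w).card - C ≤
        Real.log (((Fintype.piFinset fun _ : Fin k => LA a₀ w).image fun f => ∏ i, f i).card : ℝ)) ∨
      ∀ B : Finset ℤ, B.Nonempty →
        (1 - ε) * (Real.log (LA a₀ w).card + Real.log B.card) - C ≤
          Real.log ((((LA a₀ w).image fun a : ℕ => (a : ℤ)) + B).card : ℝ) := by
  obtain ⟨θ, L₀, hθ, hL₀, h1⟩ := mult_full k (ε / 2) ε (by positivity) hε
  obtain ⟨C, hC0, hC⟩ := sums_full ε θ hε hε1 hθ
  have hl2 : 0 < Real.log 2 := Real.log_pos (by norm_num)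
  refine ⟨max C (max (Real.log 2) (k * L₀)), le_max_of_le_left hC0, ?_⟩
  intro J _ _ w a₀ ha hw
  rw [card_LA hw ha]
  set L := Real.log (Lo J).card with hLdef
  have hL0 : 0 ≤ L := Real.log_natCast_nonneg _
  have hm1 := le_max_left C (max (Real.log 2) (k * L₀))
  have hm2 := (le_max_left (Real.log 2) (k * L₀)).trans
    (le_max_right C (max (Real.log 2) (k * L₀)))
  have hm3 := (le_max_right (Real.log 2) (k * L₀)).trans
    (le_max_right C (max (Real.log 2) (k * L₀)))
  by_cases hL : L₀ ≤ L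
  · by_cases hN : NoTog J θ (ε / 2)
    · left
      have h2 := h1 J hL hN
      rw [← hLdef] at h2
      have h3 : Real.log (((Tu J (Fin k)).image mult).card : ℝ) ≤
          Real.log (((Fintype.piFinset fun _ : Fin k => LA a₀ w).image
            fun f => ∏ i, f i).card : ℝ) := by
        apply Real.log_le_log
        · have : ((Tu J (Fin k)).image mult).Nonempty :=
            ⟨_, Finset.mem_image_of_mem _ (mem_Tu.2 fun _ => empty_mem_Lo)⟩
          exact_mod_cast this.card_pos
        · exact_mod_cast prods_card hw ha k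
      linarith
    · right
      intro B hB
      have h2 := hC J w a₀ ha hw hN B hB
      rw [← hLdef] at h2
      linarith
  · left
    push Not at hL
    have h2 : 0 ≤ Real.log (((Fintype.piFinset fun _ : Fin k => LA a₀ w).image
        fun f => ∏ i, f i).card : ℝ) := Real.log_natCast_nonneg _
    have h3 : (k : ℝ) * L ≤ k * L₀ := mul_le_mul_of_nonneg_left hL.le (Nat.cast_nonneg k)
    have h4 : 0 ≤ ε * L := by positivity
    nlinarith

/-- from logarithms to powers -/
theorem pow_le_of_log {n m : ℕ} {e C : ℝ} (hn : 0 < n) (hm : 0 < m)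
    (h : e * Real.log n - C ≤ Real.log m) : Real.exp (-C) * (n : ℝ) ^ e ≤ m := by
  have hn' : (0 : ℝ) < n := by exact_mod_cast hn
  have hm' : (0 : ℝ) < m := by exact_mod_cast hm
  rw [Real.rpow_def_of_pos hn', ← Real.exp_add, ← Real.le_log_iff_exp_le hm']
  linarith

theorem SqLattice.birk {A : Finset ℕ} (h : SqLattice A) :
    ∃ (J : Type) (_ : Fintype J) (_ : PartialOrder J) (w : J → ℕ) (a₀ : ℕ),
      0 < a₀ ∧ Wt w ∧ A = LA a₀ w :=
  Lat.birk A h.1 h.2.1 (fun a ha b hb => (h.2.2.1 a ha b hb).1)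
    (fun a ha b hb => (h.2.2.1 a ha b hb).2) h.2.2.2

theorem prods_pos {A : Finset ℕ} (hA : A.Nonempty) (k : ℕ) :
    0 < ((Fintype.piFinset fun _ : Fin k => A).image fun f => ∏ i, f i).card := by
  rw [Finset.card_pos]
  obtain ⟨a, ha⟩ := hA
  exact ⟨_, Finset.mem_image_of_mem _ (Fintype.mem_piFinset.2 fun _ => ha)⟩

theorem dich (k : ℕ) (ε : ℝ) (hε : 0 < ε) :
    ∃ c : ℝ, 0 < c ∧ ∀ A : Finset ℕ, SqLattice A →
      c * (A.card : ℝ) ^ ((k : ℝ) - ε) ≤
          ((Fintype.piFinset fun _ : Fin k => A).image fun f => ∏ i, f i).card ∨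
      ∀ B : Finset ℤ, B.Nonempty →
        c * ((A.card : ℝ) * B.card) ^ (1 - ε) ≤
          ((A ×ˢ B).image fun x => (x.1 : ℤ) + x.2).card := by
  set ε' := min ε (1 / 2) with hε'
  have hε'0 : 0 < ε' := lt_min hε (by norm_num)
  have hε'1 : ε' < 1 := lt_of_le_of_lt (min_le_right _ _) (by norm_num)
  have hε'ε : ε' ≤ ε := min_le_left _ _
  obtain ⟨C, hC0, hC⟩ := dich_log k ε' hε'0 hε'1
  refine ⟨Real.exp (-C), Real.exp_pos _, ?_⟩
  intro A hA
  obtain ⟨J, _, _, w, a₀, ha, hw, rfl⟩ := hA.birk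
  have hApos : 0 < (LA a₀ w).card := hA.1.card_pos
  have hL0 : 0 ≤ Real.log (LA a₀ w).card := Real.log_natCast_nonneg _
  rcases hC J w a₀ ha hw with h | h
  · left
    apply pow_le_of_log hApos (prods_pos hA.1 k)
    have : (k - ε) * Real.log (LA a₀ w).card ≤ (k - ε') * Real.log (LA a₀ w).card :=
      mul_le_mul_of_nonneg_right (by linarith) hL0
    linarith
  · right
    intro B hB
    have h1 := h B hB
    have h2 : ((((LA a₀ w).image fun a : ℕ => (a : ℤ)) + B)) =
        ((LA a₀ w) ×ˢ B).image fun x => (x.1 : ℤ) + x.2 := by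
      ext z
      simp only [Finset.mem_add, Finset.mem_image, Finset.mem_product, Prod.exists]
      constructor
      · rintro ⟨_, ⟨a, ha, rfl⟩, b, hb, rfl⟩
        exact ⟨a, b, ⟨ha, hb⟩, rfl⟩
      · rintro ⟨a, b, ⟨ha, hb⟩, rfl⟩
        exact ⟨_, ⟨a, ha, rfl⟩, b, hb, rfl⟩
    rw [h2] at h1
    have hApos' : (0 : ℝ) < (LA a₀ w).card := by exact_mod_cast hApos
    have hBpos' : (0 : ℝ) < B.card := by exact_mod_cast hB.card_pos
    have hlB : 0 ≤ Real.log B.card := Real.log_natCast_nonneg _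
    rw [← Nat.cast_mul]
    apply pow_le_of_log (Nat.mul_pos hApos hB.card_pos)
    · rw [Finset.card_pos]
      exact (hA.1.product hB).image _
    · rw [Nat.cast_mul, Real.log_mul hApos'.ne' hBpos'.ne']
      have : (1 - ε) * (Real.log (LA a₀ w).card + Real.log B.card) ≤
          (1 - ε') * (Real.log (LA a₀ w).card + Real.log B.card) :=
        mul_le_mul_of_nonneg_right (by linarith) (by linarith)
      linarith

theorem kfold (k : ℕ) (hk : 1 ≤ k) (ε : ℝ) (hε : 0 < ε) :
    ∃ c : ℝ, 0 < c ∧ ∀ A : Finset ℕ, SqLattice A →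
      c * (A.card : ℝ) ^ ((k : ℝ) - ε) ≤
        max (((Fintype.piFinset fun _ : Fin k => A).image fun f => ∑ i, f i).card : ℝ)
          (((Fintype.piFinset fun _ : Fin k => A).image fun f => ∏ i, f i).card : ℝ) := by
  have hk' : (1 : ℝ) ≤ k := by exact_mod_cast hk
  set ε' := min (ε / k ^ 2) (1 / 2) with hε'
  have hε'0 : 0 < ε' := lt_min (by positivity) (by norm_num)
  have hε'1 : ε' < 1 := lt_of_le_of_lt (min_le_right _ _) (by norm_num)
  have hε'ε : ε' * k ^ 2 ≤ ε := by
    have := min_le_left (ε / k ^ 2) (1 / 2)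
    rw [← hε', le_div_iff₀ (by positivity)] at this
    exact this
  have hk2 : (1 : ℝ) ≤ (k : ℝ) ^ 2 := one_le_pow₀ hk'
  have hε'ε2 : ε' ≤ ε := by nlinarith
  obtain ⟨C, hC0, hC⟩ := dich_log k ε' hε'0 hε'1
  refine ⟨Real.exp (-(max C (k * C))), Real.exp_pos _, ?_⟩
  intro A hA
  obtain ⟨J, _, _, w, a₀, ha, hw, rfl⟩ := hA.birk
  have hApos : 0 < (LA a₀ w).card := hA.1.card_pos
  have hL0 : 0 ≤ Real.log (LA a₀ w).card := Real.log_natCast_nonneg _
  rcases hC J w a₀ ha hw with h | h
  · refine le_trans ?_ (le_max_right _ _)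
    apply pow_le_of_log hApos (prods_pos hA.1 k)
    have h1 : (k - ε) * Real.log (LA a₀ w).card ≤ (k - ε') * Real.log (LA a₀ w).card :=
      mul_le_mul_of_nonneg_right (by linarith) hL0
    have h2 := le_max_left C (k * C)
    linarith
  · refine le_trans ?_ (le_max_left _ _)
    have hAz : ((LA a₀ w).image fun a : ℕ => (a : ℤ)).Nonempty := hA.1.image _
    have h1 := kSum_ge hAz hL0 hε'0.le hε'1.le hC0 h k
    have hsum : 0 < (kSum k (LA a₀ w)).card := by
      rw [Finset.card_pos]
      exact Pool.Agent.TH83.DC.kSum_nonempty k hA.1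
    have h2 : Real.log ((kSum k ((LA a₀ w).image fun a : ℕ => (a : ℤ))).card : ℝ) ≤
        Real.log ((kSum k (LA a₀ w)).card : ℝ) := by
      apply Real.log_le_log
      · exact_mod_cast (Pool.Agent.TH83.DC.kSum_nonempty k hAz).card_pos
      · exact_mod_cast kSum_cast k _
    have h3 : (k - ε) * Real.log (LA a₀ w).card ≤ (k - ε' * k ^ 2) * Real.log (LA a₀ w).card :=
      mul_le_mul_of_nonneg_right (by linarith) hL0
    have h4 := le_max_right C (k * C)
    have h5 : Real.exp (-(max C (k * C))) * ((LA a₀ w).card : ℝ) ^ ((k : ℝ) - ε) ≤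
        ((kSum k (LA a₀ w)).card : ℝ) := pow_le_of_log hApos hsum (by linarith)
    simpa only [kSum] using h5

/-- `m`-fold sums plus a set -/
theorem kSum_add_ge' {D : Finset ℤ} (hD : D.Nonempty) {ε C L : ℝ} (hL : 0 ≤ L) (hε0 : 0 ≤ ε)
    (hε1 : ε ≤ 1) (hC : 0 ≤ C)
    (h : ∀ B : Finset ℤ, B.Nonempty →
      (1 - ε) * (L + Real.log B.card) - C ≤ Real.log ((D + B).card : ℝ)) (m : ℕ)
    (B : Finset ℤ) (hB : B.Nonempty) :
    ((m : ℝ) - ε * m ^ 2) * L + (1 - m * ε) * Real.log B.card - m * C ≤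
      Real.log ((kSum m D + B).card : ℝ) := by
  have hlB : 0 ≤ Real.log B.card := Real.log_natCast_nonneg _
  induction m with
  | zero =>
    have h0 : B ⊆ kSum 0 D + B := by
      intro b hb
      refine Finset.mem_add.2 ⟨0, ?_, b, hb, zero_add b⟩
      exact Finset.mem_image.2 ⟨fun i => i.elim0, Fintype.mem_piFinset.2 fun i => i.elim0,
        by simp⟩
    have h1 : Real.log B.card ≤ Real.log ((kSum 0 D + B).card : ℝ) :=
      Real.log_le_log (by exact_mod_cast hB.card_pos) (by exact_mod_cast Finset.card_le_card h0)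
    simp only [Nat.cast_zero, ne_eq, OfNat.ofNat_ne_zero, not_false_eq_true, zero_pow, mul_zero,
      sub_zero, zero_mul, one_mul, zero_add]
    exact h1
  | succ m ih =>
    have hn : (kSum m D + B).Nonempty := (Pool.Agent.TH83.DC.kSum_nonempty m hD).add hB
    have h1 := h (kSum m D + B) hn
    have h2 : Real.log ((D + (kSum m D + B)).card : ℝ) ≤
        Real.log ((kSum (m + 1) D + B).card : ℝ) := by
      apply Real.log_le_log
      · exact_mod_cast (hD.add hn).card_pos
      · have h3 : D + (kSum m D + B) ⊆ kSum (m + 1) D + B := by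
          rw [← add_assoc]
          exact Finset.add_subset_add_right (Pool.Agent.TH83.DC.add_kSum_subset m D)
        exact_mod_cast Finset.card_le_card h3
    have h3 : (1 - ε) * (((m : ℝ) - ε * m ^ 2) * L + (1 - m * ε) * Real.log B.card - m * C) ≤
        (1 - ε) * Real.log ((kSum m D + B).card : ℝ) :=
      mul_le_mul_of_nonneg_left ih (by linarith)
    have hm : (0 : ℝ) ≤ m := Nat.cast_nonneg m
    have h4 : 0 ≤ ε * m * C := by positivity
    have h5 : 0 ≤ ε * m * L := by positivity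
    have h6 : 0 ≤ ε ^ 2 * m ^ 2 * L := by positivity
    have h7 : 0 ≤ ε ^ 2 * m * Real.log B.card := by positivity
    push_cast
    nlinarith

end Pool.Agent.T2h42.Lat
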