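import Pool.Agent.T2h42.Lat.Few

/-!
The induction on the length of the tuples.
-/

set_option autoImplicit false
set_option linter.unusedSectionVars false

namespace Pool.Agent.T2h42.Lat

open Finset
open scoped Classical

variable {J : Type} [Fintype J] [PartialOrder J] {κ : Type} [Fintype κ]

theorem card_split (I : Finset κ) :
    Fintype.card {i // i ∈ I} + Fintype.card {i // i ∉ I} = Fintype.card κ := by
  rw [Fintype.card_subtype_compl]
  have := Fintype.card_subtype_le fun i => i ∈ I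
  omega

/-- the tuples with a given pattern -/
theorem pattern_card {M : ℕ} {θL B : ℝ} (I : Finset κ)
    (hB : ∀ P : Finset J, (((Tu J {i // i ∉ I}).filter fun v =>
      θL ≤ ((Top M P ∩ Up (Uni v)).card : ℝ)).card : ℝ) ≤ B) :
    (((Tu J κ).filter fun x => θL ≤ ((Top M (Int' fun i : {i // i ∈ I} => x i) ∩
      Up (Uni fun i : {i // i ∉ I} => x i)).card : ℝ)).card : ℝ) ≤
      ((Lo J).card : ℝ) ^ Fintype.card {i // i ∈ I} * B := by
  have h1 : ((Tu J κ).filter fun x => θL ≤ ((Top M (Int' fun i : {i // i ∈ I} => x i) ∩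
      Up (Uni fun i : {i // i ∉ I} => x i)).card : ℝ)).card ≤
      ((Tu J {i // i ∈ I}).sigma fun u => (Tu J {i // i ∉ I}).filter fun v =>
        θL ≤ ((Top M (Int' u) ∩ Up (Uni v)).card : ℝ)).card := by
    apply Finset.card_le_card_of_injOn
      (fun x => (⟨fun i => x i, fun i => x i⟩ :
        Σ _ : ({i // i ∈ I} → Finset J), ({i // i ∉ I} → Finset J)))
    · intro x hx
      obtain ⟨hx1, hx2⟩ := Finset.mem_filter.1 (Finset.mem_coe.1 hx)
      rw [Finset.mem_coe, Finset.mem_sigma]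
      refine ⟨mem_Tu.2 fun i => mem_Tu.1 hx1 i, Finset.mem_filter.2
        ⟨mem_Tu.2 fun i => mem_Tu.1 hx1 i, hx2⟩⟩
    · intro x _ x' _ h
      simp only [Sigma.mk.injEq, heq_eq_eq] at h
      obtain ⟨h1, h2⟩ := h
      funext i
      by_cases hi : i ∈ I
      · exact congrFun h1 ⟨i, hi⟩
      · exact congrFun h2 ⟨i, hi⟩
  rw [Finset.card_sigma] at h1
  calc (((Tu J κ).filter fun x => θL ≤ ((Top M (Int' fun i : {i // i ∈ I} => x i) ∩
      Up (Uni fun i : {i // i ∉ I} => x i)).card : ℝ)).card : ℝ)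
      ≤ ∑ u ∈ Tu J {i // i ∈ I}, ((((Tu J {i // i ∉ I}).filter fun v =>
        θL ≤ ((Top M (Int' u) ∩ Up (Uni v)).card : ℝ)).card : ℕ) : ℝ) := by exact_mod_cast h1
    _ ≤ (Tu J {i // i ∈ I}).card • B := Finset.sum_le_card_nsmul _ _ _ fun u _ => hB _
    _ = _ := by rw [nsmul_eq_mul, card_Tu, Nat.cast_pow]

/-- few tuples have many representations -/
theorem few (n : ℕ) : ∀ δs η : ℝ, 0 < δs → 0 < η → ∃ θ δ L₀ : ℝ, 0 < θ ∧ 0 < δ ∧ 0 < L₀ ∧
    ∀ (J : Type) [Fintype J] [PartialOrder J] (κ : Type) [Fintype κ], Fintype.card κ ≤ n →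
      L₀ ≤ Real.log (Lo J).card → NoTog J θ δs →
      ((Bad J κ η).card : ℝ) ≤ Real.exp ((Fintype.card κ - δ) * Real.log (Lo J).card) := by
  induction n with
  | zero =>
    intro δs η _ hη
    refine ⟨1, 1, 1, one_pos, one_pos, one_pos, ?_⟩
    intro J _ _ κ _ hκ hL _
    haveI : IsEmpty κ := Fintype.card_eq_zero_iff.1 (by omega)
    rw [bad_empty (by positivity)]
    simp only [Finset.card_empty, Nat.cast_zero]
    exact (Real.exp_pos _).le
  | succ n ih =>
    intro δs η hδs hη
    obtain ⟨θ₁, δ₁, L₁, hθ₁, hδ₁, hL₁, hih⟩ := ih δs (δs / 2) hδs (by positivity)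
    set c₀ := min δ₁ (δs / 2) with hc₀
    have hc₀0 : 0 < c₀ := lt_min hδ₁ (by positivity)
    set θ₀ := η / (((n + 1 : ℕ) : ℝ) * 2 ^ (n + 1)) with hθ₀
    have hθ₀0 : 0 < θ₀ := by positivity
    obtain ⟨M, hM⟩ : ∃ M : ℕ, 2 / θ₀ ≤ Real.log ((M : ℝ) + 2) := by
      refine ⟨⌈Real.exp (2 / θ₀)⌉₊, ?_⟩
      rw [Real.le_log_iff_exp_le (by positivity)]
      have := Nat.le_ceil (Real.exp (2 / θ₀))
      linarith
    have hl2 : 0 < Real.log 2 := Real.log_pos (by norm_num)
    have hl2' : Real.log 2 ≤ 1 := by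
      have := Real.log_two_lt_d9
      linarith
    have hMl : 1 ≤ ((M : ℝ) + 1) / Real.log 2 := by
      rw [le_div_iff₀ hl2]
      have : (0 : ℝ) ≤ M := Nat.cast_nonneg _
      linarith
    obtain ⟨θ, hθ0, hθ', hθ1, hθc⟩ := exists_theta (c := c₀ / 4) (by positivity)
      (θ' := min θ₁ (θ₀ / 2)) (lt_min hθ₁ (by positivity)) hMl
    set Λ := ((M : ℝ) + 1) / Real.log 2 / θ with hΛ
    have hΛ1 : 1 ≤ Λ := by
      rw [hΛ, le_div_iff₀ hθ0]
      linarith
    have hΛl : 0 ≤ Real.log Λ := Real.log_nonneg hΛ1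
    refine ⟨θ, c₀ / 2, max (max L₁ 1) (4 / c₀ * ((n + 2) * Real.log 2 + Real.log Λ)), hθ0,
      by positivity, lt_of_lt_of_le one_pos ((le_max_right _ _).trans (le_max_left _ _)), ?_⟩
    intro J _ _ κ _ hκ hL hN
    set L := Real.log (Lo J).card with hLdef
    have hLL₁ : L₁ ≤ L := ((le_max_left _ _).trans (le_max_left _ _)).trans hL
    have hL1 : 1 ≤ L := ((le_max_right _ _).trans (le_max_left _ _)).trans hL
    have hL0 : 0 < L := by linarith
    have hLc : (n + 2) * Real.log 2 + Real.log Λ ≤ c₀ / 4 * L := by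
      have h1 := (le_max_right _ _).trans hL
      have h2 : c₀ / 4 * (4 / c₀ * ((n + 2) * Real.log 2 + Real.log Λ)) ≤ c₀ / 4 * L :=
        mul_le_mul_of_nonneg_left h1 (by positivity)
      have h3 : c₀ / 4 * (4 / c₀ * ((n + 2) * Real.log 2 + Real.log Λ)) =
          (n + 2) * Real.log 2 + Real.log Λ := by field_simp
      linarith
    set k := Fintype.card κ with hk
    set BI : Finset κ → Finset (κ → Finset J) := fun I =>
      (Tu J κ).filter fun x => θ * L ≤ ((Top M (Int' fun i : {i // i ∈ I} => x i) ∩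
      Up (Uni fun i : {i // i ∉ I} => x i)).card : ℝ) with hBI
    have hcov : Bad J κ η ⊆ (univ.filter fun I : Finset κ => I ≠ ∅ ∧ I ≠ univ).biUnion BI := by
      intro x hx
      obtain ⟨hx1, hx2⟩ := Finset.mem_filter.1 hx
      obtain ⟨I, hI1, hI2, hI3⟩ := exists_part hx1 M (by positivity) hx2
      rw [Finset.mem_biUnion]
      refine ⟨I, Finset.mem_filter.2 ⟨Finset.mem_univ _, hI1, hI2⟩,
        Finset.mem_filter.2 ⟨hx1, ?_⟩⟩
      set s : ℝ := ((Top M (Int' fun i : {i // i ∈ I} => x i) ∩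
        Up (Uni fun i : {i // i ∉ I} => x i)).card : ℝ) with hs
      have hlM : 0 < Real.log ((M : ℝ) + 2) := by
        refine lt_of_lt_of_le ?_ hM
        positivity
      have hs0 : 0 ≤ s + L / Real.log ((M : ℝ) + 2) := by
        have : (0 : ℝ) ≤ s := Nat.cast_nonneg _
        positivity
      have h1 : (k : ℝ) * 2 ^ k ≤ ((n + 1 : ℕ) : ℝ) * 2 ^ (n + 1) := by
        have h2 : (k : ℝ) ≤ ((n + 1 : ℕ) : ℝ) := by exact_mod_cast hκ
        have h3 : (2 : ℝ) ^ k ≤ 2 ^ (n + 1) := pow_le_pow_right₀ (by norm_num) hκ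
        exact mul_le_mul h2 h3 (by positivity) (by positivity)
      have h2 : η * L ≤ (((n + 1 : ℕ) : ℝ) * 2 ^ (n + 1)) *
          (s + L / Real.log ((M : ℝ) + 2)) := hI3.trans (mul_le_mul_of_nonneg_right h1 hs0)
      have h3 : θ₀ * L ≤ s + L / Real.log ((M : ℝ) + 2) := by
        have h4 : θ₀ * L = η * L / (((n + 1 : ℕ) : ℝ) * 2 ^ (n + 1)) := by
          rw [hθ₀]; ring
        rw [h4, div_le_iff₀ (by positivity)]
        linarith
      have h4 : L / Real.log ((M : ℝ) + 2) ≤ θ₀ / 2 * L := by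
        rw [div_le_iff₀ hlM]
        have h5 : 1 ≤ θ₀ / 2 * Real.log ((M : ℝ) + 2) := by
          have := mul_le_mul_of_nonneg_left hM (by positivity : (0 : ℝ) ≤ θ₀ / 2)
          have h6 : θ₀ / 2 * (2 / θ₀) = 1 := by field_simp
          linarith
        nlinarith
      have h5 : θ ≤ θ₀ / 2 := hθ'.trans (min_le_right _ _)
      have h6 : θ * L ≤ θ₀ / 2 * L := mul_le_mul_of_nonneg_right h5 hL0.le
      linarith
    have hNL : ((Lo J).card : ℝ) = Real.exp L := by
      rw [hLdef, Real.exp_log]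
      exact_mod_cast card_Lo_pos
    have hBc : ∀ I ∈ univ.filter (fun I : Finset κ => I ≠ ∅ ∧ I ≠ univ),
        (((BI I).card : ℕ) : ℝ) ≤ Real.exp ((θ * L + 1) * Real.log Λ + θ * L) *
          (2 * Real.exp ((k - c₀) * L)) := by
      intro I hI
      obtain ⟨_, hI1, hI2⟩ := Finset.mem_filter.1 hI
      have hsp := card_split I
      have hc1 : 0 < Fintype.card {i // i ∈ I} := by
        rw [Fintype.card_coe]
        exact Finset.card_pos.2 (Finset.nonempty_iff_ne_empty.2 hI1)
      have hc2 : 0 < Fintype.card {i // i ∉ I} := by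
        rw [Fintype.card_pos_iff]
        by_contra hcon
        apply hI2
        rw [not_nonempty_iff] at hcon
        ext i
        constructor
        · intro _; exact Finset.mem_univ _
        · intro _
          by_contra hi
          exact hcon.elim ⟨i, hi⟩
      obtain ⟨k', hk'⟩ : ∃ k', Fintype.card {i // i ∉ I} = k' + 1 :=
        ⟨Fintype.card {i // i ∉ I} - 1, by omega⟩
      have hpb := pattern_card (J := J) (M := M) (θL := θ * L) I (fun P =>
        part_card (M := M) (θ := θ) (δs := δs) (δ₁ := δ₁) (L := L) hLdef hθ0 (by positivity)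
          hΛ1 (by
            have h1 : Λ * (θ * L) = ((M : ℝ) + 1) * (L / Real.log 2) := by
              rw [hΛ]; field_simp
            rw [h1]
            have : 0 ≤ L / Real.log 2 := by positivity
            nlinarith) hN hδs hk'
          (hih J {i // i ∉ I} (by omega) hLL₁ (hN.mono (hθ'.trans (min_le_left _ _)))) P)
      refine hpb.trans (le_of_eq ?_)
      rw [hNL, ← Real.exp_nat_mul]
      have h1 : Real.exp ((k - c₀) * L) = Real.exp (Fintype.card {i // i ∈ I} * L) *
          Real.exp ((Fintype.card {i // i ∉ I} - c₀) * L) := by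
        rw [← Real.exp_add]
        congr 1
        rw [hk, ← hsp]
        push_cast
        ring
      rw [h1]
      ring
    have hcount : ((univ.filter fun I : Finset κ => I ≠ ∅ ∧ I ≠ univ).card : ℝ) ≤ 2 ^ (n + 1) := by
      have h1 : (univ.filter fun I : Finset κ => I ≠ ∅ ∧ I ≠ univ).card ≤ 2 ^ (n + 1) := by
        refine (Finset.card_le_card (Finset.filter_subset _ _)).trans ?_
        rw [Finset.card_univ, Fintype.card_finset]
        exact Nat.pow_le_pow_right (by norm_num) hκ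
      exact_mod_cast h1
    have hfin : ((Bad J κ η).card : ℝ) ≤ 2 ^ (n + 1) *
        (Real.exp ((θ * L + 1) * Real.log Λ + θ * L) * (2 * Real.exp ((k - c₀) * L))) := by
      calc ((Bad J κ η).card : ℝ) ≤ ∑ I ∈ univ.filter (fun I : Finset κ => I ≠ ∅ ∧ I ≠ univ),
          (((BI I).card : ℕ) : ℝ) := by
            exact_mod_cast (Finset.card_le_card hcov).trans Finset.card_biUnion_le
        _ ≤ (univ.filter fun I : Finset κ => I ≠ ∅ ∧ I ≠ univ).card • (Real.exp
          ((θ * L + 1) * Real.log Λ + θ * L) * (2 * Real.exp ((k - c₀) * L))) :=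
          Finset.sum_le_card_nsmul _ _ _ hBc
        _ = ((univ.filter fun I : Finset κ => I ≠ ∅ ∧ I ≠ univ).card : ℝ) * (Real.exp
          ((θ * L + 1) * Real.log Λ + θ * L) * (2 * Real.exp ((k - c₀) * L))) := by
          rw [nsmul_eq_mul]
        _ ≤ _ := mul_le_mul_of_nonneg_right hcount (by positivity)
    refine hfin.trans ?_
    have h2 : (2 : ℝ) ^ (n + 1) * (Real.exp ((θ * L + 1) * Real.log Λ + θ * L) *
        (2 * Real.exp ((k - c₀) * L))) =
        Real.exp ((n + 2) * Real.log 2 + ((θ * L + 1) * Real.log Λ + θ * L) + (k - c₀) * L) := by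
      have h3 : Real.exp ((n + 2) * Real.log 2) = 2 ^ (n + 1) * 2 := by
        have : ((n : ℝ) + 2) * Real.log 2 = ((n + 2 : ℕ) : ℝ) * Real.log 2 := by push_cast; ring
        rw [this, ← Real.log_pow, Real.exp_log (by positivity), pow_succ]
      rw [Real.exp_add ((n + 2) * Real.log 2 + ((θ * L + 1) * Real.log Λ + θ * L)),
        Real.exp_add ((n + 2) * Real.log 2), h3]
      ring
    rw [h2]
    apply Real.exp_le_exp.2
    have h4 : (θ * L + 1) * Real.log Λ + θ * L = θ * (1 + Real.log Λ) * L + Real.log Λ := by ring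
    have h5 : θ * (1 + Real.log Λ) * L ≤ c₀ / 4 * L := mul_le_mul_of_nonneg_right hθc hL0.le
    nlinarith

end Pool.Agent.T2h42.Lat
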