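import Pool.Agent.T2h42.Lat.Ind
import Pool.Agent.T2h42.GD.Main
import Pool.Agent.TH83.DC.KFold

/-!
Sets of integers indexed by lower sets: products and sums.
-/

set_option autoImplicit false
set_option linter.unusedSectionVars false

namespace Pool.Agent.T2h42.Lat

open Finset
open Pool.Agent.TH83.SQ (dil)
open Pool.Agent.TH83.DC (kSum kSum_ge kSum_cast)
open Pool.Agent.T2h42.GD (dm Tog dilates)
open scoped Classical Pointwise

variable {J : Type} [Fintype J] [PartialOrder J]

/-- pairwise coprime squarefree weights `> 1` -/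
structure Wt (w : J → ℕ) : Prop where
  one : ∀ j, 1 < w j
  sf : ∀ j, Squarefree (w j)
  cop : ∀ i j, i ≠ j → Nat.Coprime (w i) (w j)

/-- the integers attached to the lower sets -/
noncomputable def LA (a₀ : ℕ) (w : J → ℕ) : Finset ℕ :=
  (Lo J).image fun D => a₀ * ∏ j ∈ D, w j

theorem mexp_inj {w : J → ℕ} (hw : Wt w) {m m' : J → ℕ}
    (h : ∏ j, w j ^ m j = ∏ j, w j ^ m' j) : m = m' := by
  funext j
  have hne : ∀ i, w i ≠ 0 := fun i => by have := hw.one i; omega
  have hp : (w j).minFac.Prime := Nat.minFac_prime (by have := hw.one j; omega)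
  set p := (w j).minFac with hpdef
  have hf : ∀ m : J → ℕ, (∏ j, w j ^ m j).factorization p = m j * (w j).factorization p := by
    intro m
    rw [Nat.factorization_prod (fun i _ => pow_ne_zero _ (hne i))]
    rw [Finsupp.finset_sum_apply, Finset.sum_eq_single j]
    · rw [Nat.factorization_pow]; simp
    · intro i _ hij
      rw [Nat.factorization_pow]
      have h0 : (w i).factorization p = 0 := by
        apply Nat.factorization_eq_zero_of_not_dvd
        intro hpi
        have h1 : p ∣ w j := Nat.minFac_dvd _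
        exact hp.one_lt.ne' (Nat.dvd_one.1 ((hw.cop i j hij) ▸ Nat.dvd_gcd hpi h1))
      simp [h0]
    · intro hj; exact absurd (Finset.mem_univ j) hj
  have h1 : 0 < (w j).factorization p :=
    hp.factorization_pos_of_dvd (hne j) (Nat.minFac_dvd _)
  have h2 := hf m
  rw [h, hf m'] at h2
  exact (Nat.eq_of_mul_eq_mul_right h1 h2).symm

theorem prod_eq_mexp (w : J → ℕ) (D : Finset J) :
    ∏ j ∈ D, w j = ∏ j, w j ^ (if j ∈ D then 1 else 0) := by
  have : ∀ j, w j ^ (if j ∈ D then 1 else 0) = if j ∈ D then w j else 1 := by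
    intro j
    split_ifs <;> simp
  simp only [this]
  rw [Finset.prod_ite_mem, Finset.univ_inter]

theorem val_inj {w : J → ℕ} (hw : Wt w) {a₀ : ℕ} (ha : 0 < a₀) :
    Function.Injective fun D : Finset J => a₀ * ∏ j ∈ D, w j := by
  intro D D' h
  have h1 := Nat.eq_of_mul_eq_mul_left ha h
  rw [prod_eq_mexp, prod_eq_mexp w D'] at h1
  have h2 := mexp_inj hw h1
  ext j
  have h3 := congrFun h2 j
  by_cases hj : j ∈ D <;> by_cases hj' : j ∈ D' <;> simp_all

theorem card_LA {w : J → ℕ} (hw : Wt w) {a₀ : ℕ} (ha : 0 < a₀) :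
    (LA a₀ w).card = (Lo J).card :=
  Finset.card_image_of_injective _ (val_inj hw ha)

/-- the number of products is at least the number of multiplicity functions -/
theorem prods_card {w : J → ℕ} (hw : Wt w) {a₀ : ℕ} (ha : 0 < a₀) (k : ℕ) :
    ((Tu J (Fin k)).image mult).card ≤
      ((Fintype.piFinset fun _ : Fin k => LA a₀ w).image fun f => ∏ i, f i).card := by
  apply Finset.card_le_card_of_injOn (fun m => a₀ ^ k * ∏ j, w j ^ m j)
  · intro m hm
    obtain ⟨x, hx, rfl⟩ := Finset.mem_image.1 (Finset.mem_coe.1 hm)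
    rw [Finset.mem_coe, Finset.mem_image]
    refine ⟨fun i => a₀ * ∏ j ∈ x i, w j, ?_, ?_⟩
    · rw [Fintype.mem_piFinset]
      intro i
      exact Finset.mem_image_of_mem _ (mem_Tu.1 hx i)
    · rw [Finset.prod_mul_distrib, Finset.prod_const, Finset.card_univ, Fintype.card_fin]
      congr 1
      have h1 : ∀ i : Fin k, ∏ j ∈ x i, w j = ∏ j, if j ∈ x i then w j else 1 := by
        intro i
        rw [Finset.prod_ite_mem, Finset.univ_inter]
      simp only [h1]
      rw [Finset.prod_comm]
      apply Finset.prod_congr rfl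
      intro j _
      rw [Finset.prod_ite, Finset.prod_const, Finset.prod_const_one, mul_one]
      rfl
  · intro m _ m' _ h
    simp only at h
    exact mexp_inj hw (Nat.eq_of_mul_eq_mul_left (by positivity) h)

/-- without free addable sets there are many multiplicity functions -/
theorem mult_full (k : ℕ) (δs η : ℝ) (hδs : 0 < δs) (hη : 0 < η) :
    ∃ θ L₀ : ℝ, 0 < θ ∧ 0 < L₀ ∧ ∀ (J : Type) [Fintype J] [PartialOrder J],
      L₀ ≤ Real.log (Lo J).card → NoTog J θ δs →
      (k - η) * Real.log (Lo J).card - Real.log 2 ≤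
        Real.log (((Tu J (Fin k)).image mult).card : ℝ) := by
  obtain ⟨θ, δ, L₀, hθ, hδ, hL₀, h⟩ := few k δs η hδs hη
  refine ⟨θ, max L₀ (Real.log 2 / δ), hθ, lt_of_lt_of_le hL₀ (le_max_left _ _), ?_⟩
  intro J _ _ hL hN
  set L := Real.log (Lo J).card with hLdef
  have hL1 : L₀ ≤ L := (le_max_left _ _).trans hL
  have hL2 : Real.log 2 ≤ δ * L := by
    have := (le_max_right _ _).trans hL
    rw [div_le_iff₀ hδ] at this
    linarith
  have hB := h J (Fin k) (by rw [Fintype.card_fin]) hL1 hN
  rw [Fintype.card_fin, ← hLdef] at hB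
  have hNL : ((Lo J).card : ℝ) = Real.exp L := by
    rw [hLdef, Real.exp_log]
    exact_mod_cast card_Lo_pos
  set V := (Tu J (Fin k)).filter fun v => ¬ Real.exp (η * Real.log (Lo J).card) ≤ (rep v).card
    with hV
  have h1 : ((Bad J (Fin k) η).card : ℝ) + V.card = (Tu J (Fin k)).card := by
    have := Finset.card_filter_add_card_filter_not (s := Tu J (Fin k))
      (fun v => Real.exp (η * Real.log (Lo J).card) ≤ (rep v).card)
    exact_mod_cast this
  have h2 : ((Tu J (Fin k)).card : ℝ) = Real.exp (k * L) := by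
    rw [card_Tu, Fintype.card_fin, Nat.cast_pow, hNL, ← Real.exp_nat_mul]
  have h3 : (V.card : ℝ) ≤ (V.image mult).card * Real.exp (η * L) := by
    apply card_le_image
    · intro v hv
      exact (Finset.mem_filter.1 hv).1
    · intro v hv
      exact (not_le.1 (Finset.mem_filter.1 hv).2).le
  have h4 : ((V.image mult).card : ℝ) ≤ (((Tu J (Fin k)).image mult).card : ℝ) := by
    exact_mod_cast Finset.card_le_card (Finset.image_subset_image (Finset.filter_subset _ _))
  have h5 : Real.exp ((k - δ) * L) ≤ Real.exp (k * L) / 2 := by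
    have : Real.exp ((k - δ) * L) = Real.exp (k * L) * Real.exp (-(δ * L)) := by
      rw [← Real.exp_add]; congr 1; ring
    rw [this, Real.exp_neg]
    have h6 : 2 ≤ Real.exp (δ * L) := by
      calc (2 : ℝ) = Real.exp (Real.log 2) := (Real.exp_log (by norm_num)).symm
        _ ≤ _ := Real.exp_le_exp.2 hL2
    have h7 : (Real.exp (δ * L))⁻¹ ≤ 1 / 2 := by
      rw [one_div]
      exact inv_anti₀ (by norm_num) h6
    have := mul_le_mul_of_nonneg_left h7 (Real.exp_pos (k * L)).le
    linarith
  have h6 : Real.exp (k * L) / 2 ≤ (((Tu J (Fin k)).image mult).card : ℝ) * Real.exp (η * L) := by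
    have h7 : (V.card : ℝ) ≤ (((Tu J (Fin k)).image mult).card : ℝ) * Real.exp (η * L) :=
      h3.trans (mul_le_mul_of_nonneg_right h4 (Real.exp_pos _).le)
    linarith
  have h7 : Real.exp ((k - η) * L - Real.log 2) ≤ (((Tu J (Fin k)).image mult).card : ℝ) := by
    have h8 : Real.exp ((k - η) * L - Real.log 2) * Real.exp (η * L) = Real.exp (k * L) / 2 := by
      rw [← Real.exp_add]
      have : (k - η) * L - Real.log 2 + η * L = k * L - Real.log 2 := by ring
      rw [this, Real.exp_sub, Real.exp_log (by norm_num)]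
    have h9 := Real.exp_pos (η * L)
    by_contra hcon
    push Not at hcon
    have := mul_lt_mul_of_pos_right hcon h9
    linarith
  have h8 := Real.log_le_log (Real.exp_pos _) h7
  rwa [Real.log_exp] at h8

/-- with free addable sets all sums are large -/
theorem sums_full (ε θ : ℝ) (hε : 0 < ε) (hε1 : ε < 1) (hθ : 0 < θ) :
    ∃ C : ℝ, 0 ≤ C ∧ ∀ (J : Type) [Fintype J] [PartialOrder J] (w : J → ℕ) (a₀ : ℕ), 0 < a₀ →
      Wt w → ¬ NoTog J θ (ε / 2) → ∀ B : Finset ℤ, B.Nonempty →
        (1 - ε) * (Real.log (Lo J).card + Real.log B.card) - C ≤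
          Real.log ((((LA a₀ w).image fun a : ℕ => (a : ℤ)) + B).card : ℝ) := by
  obtain ⟨C, hC⟩ := dilates (ε / 2) (θ / (1 + 1 / ε)) (by positivity) (by positivity)
  refine ⟨max C 0, le_max_right _ _, ?_⟩
  intro J _ _ w a₀ ha hw hN B hB
  set A : Finset ℤ := (LA a₀ w).image fun a : ℕ => (a : ℤ) with hA
  set L := Real.log (Lo J).card with hLdef
  have hL0 : 0 ≤ L := Real.log_natCast_nonneg _
  have hlB : 0 ≤ Real.log B.card := Real.log_natCast_nonneg _
  have hAne : A.Nonempty := ⟨_, Finset.mem_image_of_mem _ (Finset.mem_image_of_mem _ empty_mem_Lo)⟩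
  have hC0 := le_max_right C 0
  by_cases hBL : Real.log B.card ≤ L / ε
  · rw [NoTog] at hN
    push Not at hN
    obtain ⟨S, hS1, hS2⟩ := hN
    rw [← hLdef] at hS1 hS2
    set X : Finset ℤ := ((Lo J).filter fun D => S ⊆ Up D).image
      fun D => ((a₀ * ∏ j ∈ D, w j : ℕ) : ℤ) with hX
    have hXc : X.card = ((Lo J).filter fun D => S ⊆ Up D).card := by
      apply Finset.card_image_of_injective
      intro D D' h
      exact val_inj hw ha (Nat.cast_injective (R := ℤ) h)
    have hXne : X.Nonempty := by
      rw [← Finset.card_pos, hXc]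
      have h1 := (Real.exp_pos ((1 - ε / 2) * L)).trans_le hS2
      exact_mod_cast h1
    have hXL : (1 - ε / 2) * L ≤ Real.log X.card := by
      rw [hXc, Real.le_log_iff_exp_le]
      · exact hS2
      · exact (Real.exp_pos ((1 - ε / 2) * L)).trans_le hS2
    have hXL' : Real.log X.card ≤ L := by
      apply Real.log_le_log
      · exact_mod_cast hXne.card_pos
      · rw [hXc]
        exact_mod_cast Finset.card_le_card (Finset.filter_subset _ _)
    have hT : Tog w (fun _ => 1) S := by
      refine ⟨fun i _ => (hw.one i).ne', fun i _ => ?_, fun i _ j _ hij => ?_⟩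
      · rw [mul_one]; exact hw.sf i
      · rw [mul_one, mul_one]; exact hw.cop i j hij
    obtain ⟨s, hs, hs2⟩ := hC w (fun _ => 1) S hT X B hXne hB (by
      rw [div_mul_eq_mul_div, div_le_iff₀ (by positivity)]
      have h1 : Real.log X.card + Real.log B.card ≤ L + L / ε := by linarith
      have h2 := mul_le_mul_of_nonneg_left h1 hθ.le
      have h3 : θ * (L + L / ε) = (θ * L) * (1 + 1 / ε) := by ring
      have h4 : (θ * L) * (1 + 1 / ε) ≤ S.card * (1 + 1 / ε) :=
        mul_le_mul_of_nonneg_right hS1 (by positivity)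
      linarith)
    have hsub : dil (dm w (fun _ => 1) S s) X ⊆ A := by
      intro z hz
      obtain ⟨x, hx, rfl⟩ := Finset.mem_image.1 hz
      obtain ⟨D, hD, rfl⟩ := Finset.mem_image.1 hx
      obtain ⟨hD1, hD2⟩ := Finset.mem_filter.1 hD
      have hsU : s ⊆ Up D := hs.trans hD2
      have hdis : Disjoint s D := by
        rw [Finset.disjoint_left]
        intro j hj
        exact (mem_Up.1 (hsU hj)).1
      rw [hA, Finset.mem_image]
      refine ⟨a₀ * ∏ j ∈ D ∪ s, w j, Finset.mem_image_of_mem _ (add_mem_Lo hD1 hsU), ?_⟩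
      rw [Finset.union_comm, Finset.prod_union hdis]
      simp only [dm]
      push_cast
      simp only [Finset.prod_const_one, mul_one]
      ring
    have h1 : Real.log ((dil (dm w (fun _ => 1) S s) X + B).card : ℝ) ≤
        Real.log ((A + B).card : ℝ) := by
      apply Real.log_le_log
      · exact_mod_cast ((hXne.image _).add hB).card_pos
      · exact_mod_cast Finset.card_le_card (Finset.add_subset_add_right hsub)
    have h2 := le_max_left C 0
    have h3 : (1 - ε / 2) * ((1 - ε / 2) * L + Real.log B.card) ≤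
        (1 - ε / 2) * (Real.log X.card + Real.log B.card) :=
      mul_le_mul_of_nonneg_left (by linarith) (by linarith)
    have h4 : (1 - ε) * (L + Real.log B.card) ≤
        (1 - ε / 2) * ((1 - ε / 2) * L + Real.log B.card) := by nlinarith [sq_nonneg ε]
    linarith
  · push Not at hBL
    have h1 : L ≤ ε * Real.log B.card := by
      rw [div_lt_iff₀ hε] at hBL
      linarith
    have h2 : Real.log B.card ≤ Real.log ((A + B).card : ℝ) := by
      apply Real.log_le_log
      · exact_mod_cast hB.card_pos
      · exact_mod_cast Finset.card_le_card_add_left hAne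
    nlinarith

end Pool.Agent.T2h42.Lat
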